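import Pool.Agent.Helper11.SY.Df

/-!
Determinants of bracket matrices and valuations.
-/

set_option autoImplicit false

namespace Pool.Agent.Helper11.SY

open Finset

noncomputable section

variable {R : Type} [CommRing R]

theorem val_prod (v : AddValuation R (WithTop ℝ)) {ι : Type*} (s : Finset ι) (f : ι → R) :
    v (∏ i ∈ s, f i) = ∑ i ∈ s, v (f i) := by
  classical
  induction s using Finset.induction_on with
  | empty => rw [prod_empty, sum_empty, v.map_one]
  | insert a s ha ih => rw [prod_insert ha, sum_insert ha, v.map_mul, ih]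

/-- lower bound for determinants -/
theorem val_det (v : AddValuation R (WithTop ℝ)) {ι : Type*} [Fintype ι] [DecidableEq ι]
    (M : Matrix ι ι R) (r c : ι → ℝ) (h : ∀ i j, ((r i + c j : ℝ) : WithTop ℝ) ≤ v (M i j)) :
    ((∑ i, r i + ∑ i, c i : ℝ) : WithTop ℝ) ≤ v M.det := by
  rw [Matrix.det_apply]
  refine v.map_le_sum fun σ _ => ?_
  have h1 : v (Equiv.Perm.sign σ • ∏ i, M (σ i) i) = v (∏ i, M (σ i) i) := by
    rcases Int.units_eq_one_or (Equiv.Perm.sign σ) with h | h
    · rw [h, one_smul]
    · rw [h, Units.smul_def, Units.val_neg, Units.val_one, neg_smul, one_smul, AddValuation.map_neg]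
  rw [h1, val_prod]
  have h2 : ((∑ i, r i + ∑ i, c i : ℝ) : WithTop ℝ) = ∑ i, ((r (σ i) + c i : ℝ) : WithTop ℝ) := by
    rw [← WithTop.coe_sum, WithTop.coe_eq_coe, Finset.sum_add_distrib, Equiv.sum_comp σ r]
  rw [h2]
  exact Finset.sum_le_sum fun i _ => h _ _

/-- lower bound for the entries of the adjugate -/
theorem val_adj (v : AddValuation R (WithTop ℝ)) {ι : Type*} [Fintype ι] [DecidableEq ι]
    (M : Matrix ι ι R) (r c : ι → ℝ) (h : ∀ i j, ((r i + c j : ℝ) : WithTop ℝ) ≤ v (M i j))
    (i j : ι) : ((∑ k, r k + ∑ k, c k - r j - c i : ℝ) : WithTop ℝ) ≤ v (M.adjugate i j) := by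
  rw [Matrix.adjugate_apply]
  have h1 := val_det v (M.updateRow j (Pi.single i 1)) (Function.update r j (-c i)) c (by
    intro k l
    by_cases hk : k = j
    · subst hk
      rw [Function.update_self, Matrix.updateRow_self]
      by_cases hl : l = i
      · subst hl
        rw [Pi.single_eq_same, v.map_one, neg_add_cancel]
        exact le_rfl
      · rw [Pi.single_eq_of_ne hl, v.map_zero]
        exact le_top
    · rw [Function.update_of_ne hk, Matrix.updateRow_ne hk]
      exact h k l)
  refine le_trans (le_of_eq ?_) h1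
  rw [WithTop.coe_eq_coe, Finset.sum_update_of_mem (mem_univ j)]
  have h2 : ∑ k, r k = r j + ∑ k ∈ univ \ {j}, r k := by
    rw [← Finset.sum_sdiff (Finset.subset_univ {j}), Finset.sum_singleton, add_comm]
  rw [h2]
  ring

/-- quadratic form of a skew matrix -/
theorem skew_zero {K κ : Type*} [Field K] [CharZero K] [Fintype κ] (P : Matrix κ κ K)
    (hP : ∀ i j, P i j = -P j i) (x : κ → K) : ∑ i, ∑ j, x i * P i j * x j = 0 := by
  have h1 : ∑ i, ∑ j, x i * P i j * x j = -∑ i, ∑ j, x i * P i j * x j := by
    conv_lhs => rw [Finset.sum_comm]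
    rw [← Finset.sum_neg_distrib]
    refine Finset.sum_congr rfl fun i _ => ?_
    rw [← Finset.sum_neg_distrib]
    refine Finset.sum_congr rfl fun j _ => ?_
    rw [hP j i]
    ring
  exact self_eq_neg.1 h1

theorem skew_swap {K κ : Type*} [Field K] [Fintype κ] (P : Matrix κ κ K)
    (hP : ∀ i j, P i j = -P j i) (x y : κ → K) :
    ∑ i, ∑ j, y i * P i j * x j = -∑ i, ∑ j, x i * P i j * y j := by
  conv_lhs => rw [Finset.sum_comm]
  rw [← Finset.sum_neg_distrib]
  refine Finset.sum_congr rfl fun i _ => ?_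
  rw [← Finset.sum_neg_distrib]
  refine Finset.sum_congr rfl fun j _ => ?_
  rw [hP j i]
  ring

/-- Schur complement of a skew block, over a field -/
theorem schur_field {K κ : Type*} [Field K] [CharZero K] [Fintype κ] [DecidableEq κ]
    (N : Matrix κ κ K) (hN : ∀ i j, N i j = -N j i) (hd : N.det ≠ 0) (b : K) (x y : κ → K) :
    (Matrix.fromBlocks !![0, b; -b, 0] (Matrix.of ![x, y])
      (Matrix.of fun i => ![-x i, -y i]) N).det * N.det =
      (b * N.det + ∑ i, ∑ j, x i * N.adjugate i j * y j) ^ 2 := by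
  have hu : IsUnit N.det := isUnit_iff_ne_zero.2 hd
  letI := Matrix.invertibleOfIsUnitDet N hu
  have hinv : ∀ i j, N.det * (⅟N) i j = N.adjugate i j := by
    intro i j
    rw [Matrix.invOf_eq_nonsing_inv, Matrix.inv_def, Matrix.smul_apply, smul_eq_mul, ← mul_assoc,
      Ring.mul_inverse_cancel _ hu, one_mul]
  have hskew : ∀ i j, (⅟N) i j = -(⅟N) j i := by
    have h1 : (⅟N).transpose = -⅟N := by
      have hT : N.transpose = -N := by
        ext i j
        rw [Matrix.transpose_apply, Matrix.neg_apply]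
        exact hN j i
      rw [Matrix.invOf_eq_nonsing_inv, Matrix.transpose_nonsing_inv, hT]
      rw [Matrix.inv_eq_left_inv (B := -N⁻¹)]
      rw [neg_mul_neg, Matrix.nonsing_inv_mul _ hu]
    intro i j
    have h2 := congrFun (congrFun h1 j) i
    rw [Matrix.transpose_apply, Matrix.neg_apply] at h2
    exact h2
  rw [Matrix.det_fromBlocks₂₂]
  obtain ⟨P, hP⟩ : ∃ P, ⅟N = P := ⟨_, rfl⟩
  rw [hP] at hinv hskew ⊢
  set z : K := ∑ i, ∑ j, x i * P i j * y j with hz
  have hS : !![0, b; -b, 0] - Matrix.of ![x, y] * P * (Matrix.of fun i => ![-x i, -y i]) =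
      !![0, b + z; -(b + z), 0] := by
    have hent : ∀ (p q : κ → K), ∑ j, (∑ i, p i * P i j) * q j =
        ∑ i, ∑ j, p i * P i j * q j := by
      intro p q
      rw [Finset.sum_comm]
      refine Finset.sum_congr rfl fun j _ => ?_
      rw [Finset.sum_mul]
    ext i j
    fin_cases i <;> fin_cases j
    · simp only [Matrix.sub_apply, Matrix.mul_apply, Matrix.of_apply]
      simp
      rw [hent, skew_zero _ hskew]
    · simp only [Matrix.sub_apply, Matrix.mul_apply, Matrix.of_apply]
      simp
      rw [hent]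
    · simp only [Matrix.sub_apply, Matrix.mul_apply, Matrix.of_apply]
      simp
      rw [hent, skew_swap _ hskew x y, ← hz]
      ring
    · simp only [Matrix.sub_apply, Matrix.mul_apply, Matrix.of_apply]
      simp
      rw [hent, skew_zero _ hskew]
  rw [hS, Matrix.det_fin_two_of]
  have h3 : ∑ i, ∑ j, x i * N.adjugate i j * y j = N.det * z := by
    rw [hz, Finset.mul_sum]
    refine Finset.sum_congr rfl fun i _ => ?_
    rw [Finset.mul_sum]
    refine Finset.sum_congr rfl fun j _ => ?_
    rw [← hinv]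
    ring
  rw [h3]
  ring

/-- Schur complement of a skew block, over a domain -/
theorem schur {κ : Type*} [IsDomain R] [CharZero R] [Fintype κ] [DecidableEq κ]
    (N : Matrix κ κ R) (hN : ∀ i j, N i j = -N j i) (hd : N.det ≠ 0) (b : R) (x y : κ → R) :
    (Matrix.fromBlocks !![0, b; -b, 0] (Matrix.of ![x, y])
      (Matrix.of fun i => ![-x i, -y i]) N).det * N.det =
      (b * N.det + ∑ i, ∑ j, x i * N.adjugate i j * y j) ^ 2 := by
  set φ := algebraMap R (FractionRing R) with hφ
  have hinj : Function.Injective φ := IsFractionRing.injective R (FractionRing R)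
  haveI : CharZero (FractionRing R) := charZero_of_injective_algebraMap hinj
  apply hinj
  have h1 := schur_field (N.map φ) (fun i j => by
    rw [Matrix.map_apply, Matrix.map_apply, hN i j, map_neg]) (by
    rw [← RingHom.mapMatrix_apply, ← RingHom.map_det]
    exact fun h => hd (hinj (by rw [h, map_zero]))) (φ b) (fun i => φ (x i)) (fun i => φ (y i))
  have h2 : Matrix.fromBlocks !![0, φ b; -φ b, 0] (Matrix.of ![fun i => φ (x i), fun i => φ (y i)])
      (Matrix.of fun i => ![-φ (x i), -φ (y i)]) (N.map φ) =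
      (Matrix.fromBlocks !![0, b; -b, 0] (Matrix.of ![x, y])
      (Matrix.of fun i => ![-x i, -y i]) N).map φ := by
    rw [Matrix.fromBlocks_map]
    congr 1
    · ext i j
      fin_cases i <;> fin_cases j <;> simp
    · ext i j
      fin_cases i <;> simp
    · ext i j
      fin_cases j <;> simp
  rw [h2, ← RingHom.mapMatrix_apply, ← RingHom.mapMatrix_apply, ← RingHom.map_det,
    ← RingHom.map_det, ← RingHom.map_adjugate] at h1
  rw [map_mul, h1, map_pow, map_add, map_mul, map_sum]
  congr 2
  refine Finset.sum_congr rfl fun i _ => ?_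
  rw [map_sum]
  refine Finset.sum_congr rfl fun j _ => ?_
  rw [map_mul, map_mul]
  rfl

end

end Pool.Agent.Helper11.SY
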