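import Pool.Agent.Helper11.SY.Ha
import Pool.Agent.Helper11.SY.Pf

/-!
Main steps.
-/

set_option autoImplicit false

namespace Pool.Agent.Helper11.SY

open IsLocalRing Finset

noncomputable section

variable {R : Type} [CommRing R] [Algebra ℂ R]

theorem br_skew {n : ℕ} (S : Symp R n) (f g : R) : S.br f g = -S.br g f := by
  have h1 := S.self (f + g)
  rw [map_add S.br, Derivation.add_apply, map_add, map_add, S.self, S.self, zero_add,
    add_zero] at h1
  exact eq_neg_of_add_eq_zero_left h1

theorem br_add_left {n : ℕ} (S : Symp R n) (f g h : R) :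
    S.br (f + g) h = S.br f h + S.br g h := by
  rw [map_add]
  rfl

/-- matrix of brackets of a tuple indexed by a sum -/
theorem br_blocks {n m : ℕ} (S : Symp R n) (f g : R) (F : Fin m → R) :
    (Matrix.of fun i j : Fin 2 ⊕ Fin m => S.br (Sum.elim ![f, g] F i) (Sum.elim ![f, g] F j)) =
      Matrix.fromBlocks !![0, S.br f g; -S.br f g, 0]
        (Matrix.of ![fun j => S.br f (F j), fun j => S.br g (F j)])
        (Matrix.of fun i => ![-S.br f (F i), -S.br g (F i)])
        (Matrix.of fun i j => S.br (F i) (F j)) := by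
  ext i j
  rcases i with i | i <;> rcases j with j | j
  · fin_cases i <;> fin_cases j
    · simpa using S.self f
    · simp
    · simpa using br_skew S g f
    · simpa using S.self g
  · fin_cases i <;> simp
  · fin_cases j
    · simpa using br_skew S (F i) f
    · simpa using br_skew S (F i) g
  · simp

variable [IsLocalRing R]

theorem real_val (w : CVal R) {f : R} (hf : f ≠ 0) : ∃ x : ℝ, w.v f = (x : WithTop ℝ) := by
  have h5 : w.v f ≠ ⊤ := fun h => hf (w.top _ h)
  obtain ⟨y, hy⟩ := WithTop.ne_top_iff_exists.1 h5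
  exact ⟨y, hy.symm⟩

/-- the order of the bracket is at least `- a` on the pair -/
def Good {n : ℕ} (S : Symp R n) (w : CVal R) (a : ℝ) (f g : R) : Prop :=
  w.v f + w.v g ≤ w.v (S.br f g) + (a : WithTop ℝ)

theorem good_of_real {n : ℕ} {S : Symp R n} {w : CVal R} {a : ℝ} {f g : R} {x y : ℝ}
    (hx : w.v f = x) (hy : w.v g = y) :
    Good S w a f g ↔ ((x + y - a : ℝ) : WithTop ℝ) ≤ w.v (S.br f g) := by
  rw [Good, hx, hy, ← WithTop.coe_add]
  by_cases h : w.v (S.br f g) = ⊤
  · rw [h, top_add]
    simp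
  · obtain ⟨z, hz⟩ := WithTop.ne_top_iff_exists.1 h
    rw [← hz, ← WithTop.coe_add, WithTop.coe_le_coe, WithTop.coe_le_coe]
    constructor <;> intro h <;> linarith

/-- MAIN STEP. `2 n - 2` good functions with nondegenerate brackets suffice. -/
theorem good_all [IsDomain R] {n : ℕ} (hn : 1 ≤ n) {S : Symp R n} {w : CVal R} {A : ℝ}
    (hd : LogDisc S w A) (F : Fin (2 * n - 2) → R) (hF : ∀ i g, Good S w (A / n) (F i) g)
    (hdet0 : (Matrix.of fun i j => S.br (F i) (F j)).det ≠ 0)
    (hdet : w.v (Matrix.of fun i j => S.br (F i) (F j)).det +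
      (((2 * n - 2 : ℕ) * (A / n) : ℝ) : WithTop ℝ) ≤ 2 • ∑ i, w.v (F i)) (f g : R) :
    Good S w (A / n) f g := by
  haveI : CharZero R := charZero_of_injective_algebraMap (FaithfulSMul.algebraMap_injective ℂ R)
  set a : ℝ := A / n with ha
  have hn0 : (n : ℝ) ≠ 0 := by
    have : n ≠ 0 := by omega
    exact_mod_cast this
  have hA : A = n * a := by
    rw [ha]
    field_simp
  by_cases hf : f = 0
  · rw [hf, Good, map_zero S.br, Derivation.zero_apply, w.v.map_zero, top_add, top_add]
  by_cases hg : g = 0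
  · rw [hg, Good, Derivation.map_zero, w.v.map_zero, top_add]
    exact le_top
  have hF0 : ∀ i, F i ≠ 0 := by
    intro i hi
    apply hdet0
    refine Matrix.det_eq_zero_of_row_eq_zero i fun j => ?_
    rw [Matrix.of_apply, hi, map_zero S.br, Derivation.zero_apply]
  obtain ⟨α, hα⟩ := real_val w hf
  obtain ⟨β, hβ⟩ := real_val w hg
  choose φ hφ using fun i => real_val w (hF0 i)
  obtain ⟨δ, hδ⟩ := real_val w hdet0
  have hm : (((2 * n - 2 : ℕ) : ℕ) : ℝ) = 2 * n - 2 := by
    rw [Nat.cast_sub (by omega)]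
    push_cast
    ring
  set N := Matrix.of fun i j => S.br (F i) (F j) with hN
  set s : ℝ := ∑ i, φ i with hs
  have hdet' : δ + (2 * n - 2) * a ≤ 2 * s := by
    rw [hδ] at hdet
    simp only [hφ] at hdet
    rw [← WithTop.coe_sum, ← hs, ← WithTop.coe_add, two_nsmul, ← WithTop.coe_add,
      WithTop.coe_le_coe, hm] at hdet
    linarith
  -- entries
  have hNe : ∀ i j, (((φ i - a / 2) + (φ j - a / 2) : ℝ) : WithTop ℝ) ≤ w.v (N i j) := by
    intro i j
    have h1 := (good_of_real (hφ i) (hφ j)).1 (hF i (F j))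
    rw [hN, Matrix.of_apply]
    refine le_trans (le_of_eq ?_) h1
    rw [WithTop.coe_eq_coe]
    ring
  have hsum : ∑ i, (φ i - a / 2) = s - (2 * n - 2) * (a / 2) := by
    rw [Finset.sum_sub_distrib, Finset.sum_const, Finset.card_univ, Fintype.card_fin, nsmul_eq_mul, hm]
  have hx : ∀ i, ((α + φ i - a : ℝ) : WithTop ℝ) ≤ w.v (S.br f (F i)) := by
    intro i
    have h1 := (good_of_real (hφ i) hα).1 (hF i f)
    rw [br_skew S f (F i), AddValuation.map_neg]
    refine le_trans (le_of_eq ?_) h1
    rw [WithTop.coe_eq_coe]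
    ring
  have hy : ∀ i, ((β + φ i - a : ℝ) : WithTop ℝ) ≤ w.v (S.br g (F i)) := by
    intro i
    have h1 := (good_of_real (hφ i) hβ).1 (hF i g)
    rw [br_skew S g (F i), AddValuation.map_neg]
    refine le_trans (le_of_eq ?_) h1
    rw [WithTop.coe_eq_coe]
    ring
  set b := S.br f g with hb
  set Z := ∑ i, ∑ j, S.br f (F i) * N.adjugate i j * S.br g (F j) with hZ
  -- the second term
  have hZv : ((α + β - a + δ : ℝ) : WithTop ℝ) ≤ w.v Z := by
    refine w.v.map_le_sum fun i _ => w.v.map_le_sum fun j _ => ?_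
    rw [w.v.map_mul, w.v.map_mul]
    have h1 := val_adj w.v N _ _ hNe i j
    rw [hsum] at h1
    refine le_trans ?_ (add_le_add (add_le_add (hx i) h1) (hy j))
    rw [← WithTop.coe_add, ← WithTop.coe_add, WithTop.coe_le_coe]
    linarith
  -- the determinant of the big matrix
  have h2n : 2 + (2 * n - 2) = 2 * n := by omega
  set e : Fin 2 ⊕ Fin (2 * n - 2) ≃ Fin (2 * n) := finSumFinEquiv.trans (finCongr h2n) with he
  set G : Fin (2 * n) → R := fun k => Sum.elim ![f, g] F (e.symm k) with hG
  have hGsum : ∑ k, w.v (G k) = ((α + β + s : ℝ) : WithTop ℝ) := by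
    rw [← Equiv.sum_comp e]
    simp only [hG, Equiv.symm_apply_apply]
    rw [Fintype.sum_sum_type, Fin.sum_univ_two]
    simp only [Sum.elim_inl, Sum.elim_inr, Matrix.cons_val_zero, Matrix.cons_val_one, hφ]
    rw [hα, hβ, ← WithTop.coe_sum, ← WithTop.coe_add, ← WithTop.coe_add]
  have hGdet : S.th G ^ 2 = (Matrix.fromBlocks !![0, S.br f g; -S.br f g, 0]
        (Matrix.of ![fun j => S.br f (F j), fun j => S.br g (F j)])
        (Matrix.of fun i => ![-S.br f (F i), -S.br g (F i)])
        (Matrix.of fun i j => S.br (F i) (F j))).det := by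
    rw [S.sq, ← br_blocks, ← Matrix.det_submatrix_equiv_self e]
    congr 1
    ext i j
    simp only [Matrix.submatrix_apply, Matrix.of_apply, hG, Equiv.symm_apply_apply]
  have hschur := schur N (fun i j => by
    rw [hN, Matrix.of_apply, Matrix.of_apply]
    exact br_skew S _ _) hdet0 b (fun i => S.br f (F i)) (fun i => S.br g (F i))
  rw [← hGdet, ← hZ] at hschur
  have hW : ((α + β + s - A + δ / 2 : ℝ) : WithTop ℝ) ≤ w.v (b * N.det + Z) := by
    have h1 := congrArg w.v hschur
    rw [w.v.map_mul, w.v.map_pow, w.v.map_pow, hδ] at h1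
    have h2 := hd.le G
    rw [hGsum] at h2
    by_cases htop : w.v (b * N.det + Z) = ⊤
    · rw [htop]
      exact le_top
    · obtain ⟨ω, hω⟩ := WithTop.ne_top_iff_exists.1 htop
      rw [← hω] at h1 ⊢
      by_cases htop' : w.v (S.th G) = ⊤
      · rw [htop', two_nsmul, two_nsmul, top_add, top_add, ← WithTop.coe_add] at h1
        exact absurd h1.symm WithTop.coe_ne_top
      · obtain ⟨τ, hτ⟩ := WithTop.ne_top_iff_exists.1 htop'
        rw [← hτ] at h1 h2
        rw [two_nsmul, two_nsmul, ← WithTop.coe_add, ← WithTop.coe_add, ← WithTop.coe_add,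
          WithTop.coe_eq_coe] at h1
        rw [← WithTop.coe_add, WithTop.coe_le_coe] at h2
        rw [WithTop.coe_le_coe]
        linarith
  have hbN : ((α + β - a + δ : ℝ) : WithTop ℝ) ≤ w.v (b * N.det) := by
    have h1 : b * N.det = (b * N.det + Z) - Z := by ring
    rw [h1]
    refine le_trans ?_ (w.v.map_sub _ _)
    refine le_min (le_trans ?_ hW) hZv
    rw [WithTop.coe_le_coe]
    nlinarith
  rw [w.v.map_mul, hδ] at hbN
  rw [good_of_real hα hβ, ← hb]
  by_cases htop : w.v b = ⊤
  · rw [htop]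
    exact le_top
  · obtain ⟨y, hy'⟩ := WithTop.ne_top_iff_exists.1 htop
    rw [← hy', ← WithTop.coe_add, WithTop.coe_le_coe] at hbN
    rw [← hy', WithTop.coe_le_coe]
    linarith

/-- functions of small valuation whose Hamiltonian vector field vanishes at the point are good -/
theorem good_of_small {n : ℕ} {S : Symp R n} {w : CVal R} {a : ℝ} {f : R}
    (h : ∀ g, w.v g ≤ w.v (S.br f g)) (hf : w.v f ≤ (a : WithTop ℝ)) (g : R) : Good S w a f g := by
  rw [Good, add_comm]
  exact add_le_add (h g) hf

/-- The bracket of the germ is never of order larger than `- A / n`. -/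
theorem order_le {n : ℕ} (hn : 1 ≤ n) {S : Symp R n} {w : CVal R} {A : ℝ}
    (hd : LogDisc S w A) (hm : ∃ f ∈ maximalIdeal R, f ≠ 0) :
    ∃ f g : R, S.br f g ≠ 0 ∧ w.v (S.br f g) + ((A / n : ℝ) : WithTop ℝ) ≤ w.v f + w.v g := by
  obtain ⟨f0, hf0, hf00⟩ := hm
  obtain ⟨g, i0, -, hg0, hgv⟩ := hd.eq f0 hf0 hf00
  have hn0 : (n : ℝ) ≠ 0 := by
    have : n ≠ 0 := by omega
    exact_mod_cast this
  have hgi : ∀ i, g i ≠ 0 := by
    intro i hi
    apply hg0
    exact S.th.map_coord_zero i hi
  choose φ hφ using fun i => real_val w (hgi i)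
  obtain ⟨τ, hτ⟩ := real_val w hg0
  by_contra hcon
  push Not at hcon
  -- all entries have a larger order; take the smallest excess
  have h1 : ∃ e : ℝ, 0 < e ∧ ∀ i j, ((φ i + φ j - A / n + e : ℝ) : WithTop ℝ) ≤
      w.v (S.br (g i) (g j)) := by
    have h2 : ∀ p : Fin (2 * n) × Fin (2 * n), ∃ e : ℝ, 0 < e ∧
        ((φ p.1 + φ p.2 - A / n + e : ℝ) : WithTop ℝ) ≤ w.v (S.br (g p.1) (g p.2)) := by
      intro p
      by_cases h3 : S.br (g p.1) (g p.2) = 0
      · exact ⟨1, one_pos, by rw [h3, w.v.map_zero]; exact le_top⟩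
      · obtain ⟨y, hy⟩ := real_val w h3
        have h4 := hcon _ _ h3
        rw [hy, hφ, hφ, ← WithTop.coe_add, ← WithTop.coe_add, WithTop.coe_lt_coe] at h4
        refine ⟨y + A / n - φ p.1 - φ p.2, by linarith, ?_⟩
        rw [hy, WithTop.coe_le_coe]
        linarith
    choose e he hev using h2
    haveI : Nonempty (Fin (2 * n) × Fin (2 * n)) := ⟨(i0, i0)⟩
    obtain ⟨p0, hp0⟩ := Finite.exists_min e
    refine ⟨e p0, he p0, fun i j => le_trans ?_ (hev (i, j))⟩
    rw [WithTop.coe_le_coe]
    have := hp0 (i, j)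
    simp only
    linarith
  obtain ⟨e, he, hev⟩ := h1
  have h2 := val_det w.v (Matrix.of fun i j => S.br (g i) (g j)) (fun i => φ i - A / n / 2 + e / 2)
    (fun i => φ i - A / n / 2 + e / 2) (fun i j => by
      rw [Matrix.of_apply]
      refine le_trans (le_of_eq ?_) (hev i j)
      rw [WithTop.coe_eq_coe]
      ring)
  rw [← S.sq, w.v.map_pow, hτ, two_nsmul, ← WithTop.coe_add, WithTop.coe_le_coe,
    Finset.sum_add_distrib, Finset.sum_sub_distrib, Finset.sum_const, Finset.sum_const,
    Finset.card_univ, Fintype.card_fin, nsmul_eq_mul, nsmul_eq_mul] at h2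
  simp only [hφ] at hgv
  rw [hτ, ← WithTop.coe_sum, ← WithTop.coe_add, WithTop.coe_eq_coe] at hgv
  push_cast at h2
  have h3 : (2 * (n : ℝ)) * (A / n / 2) = A := by
    field_simp
  have h4 : 0 < (2 * (n : ℝ)) * (e / 2) := by positivity
  rw [h3] at h2
  linarith

/-- If the bracket has order `- A / n`, functions with vanishing Hamiltonian vector field have
valuation at least `A / n`. -/
theorem large_of_good {n : ℕ} (hn : 1 ≤ n) {S : Symp R n} {w : CVal R} {A : ℝ}
    (hd : LogDisc S w A) (hall : ∀ f g, Good S w (A / n) f g) {f : R} (hf : f ∈ maximalIdeal R)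
    (hfix : ∀ g, w.v g ≤ w.v (S.br f g)) : ((A / n : ℝ) : WithTop ℝ) ≤ w.v f := by
  by_cases hf0 : f = 0
  · rw [hf0, w.v.map_zero]
    exact le_top
  obtain ⟨α, hα⟩ := real_val w hf0
  rw [hα, WithTop.coe_le_coe]
  by_contra hlt
  push Not at hlt
  obtain ⟨g, i0, hgf, hg0, hgv⟩ := hd.eq f hf hf0
  have hn0 : (n : ℝ) ≠ 0 := by
    have : n ≠ 0 := by omega
    exact_mod_cast this
  have hgi : ∀ i, g i ≠ 0 := by
    intro i hi
    apply hg0
    exact S.th.map_coord_zero i hi
  choose φ hφ using fun i => real_val w (hgi i)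
  obtain ⟨τ, hτ⟩ := real_val w hg0
  have hφ0 : φ i0 = α := by
    have h1 := hφ i0
    rw [hgf, hα, WithTop.coe_eq_coe] at h1
    exact h1.symm
  set a : ℝ := A / n with ha
  set c : Fin (2 * n) → ℝ := fun i => φ i - a / 2 + (if i = i0 then a - α else 0) with hc
  have h2 := val_det w.v (Matrix.of fun i j => S.br (g i) (g j)) c c (fun i j => by
      rw [Matrix.of_apply]
      by_cases hi : i = i0
      · by_cases hj : j = i0
        · rw [hi, hj, S.self, w.v.map_zero]
          exact le_top
        · rw [hi, hgf]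
          refine le_trans (le_of_eq ?_) (hfix (g j))
          rw [hφ, WithTop.coe_eq_coe, hc]
          simp only [if_true, if_neg hj, hφ0]
          ring
      · by_cases hj : j = i0
        · rw [hj, hgf, br_skew, AddValuation.map_neg]
          refine le_trans (le_of_eq ?_) (hfix (g i))
          rw [hφ, WithTop.coe_eq_coe, hc]
          simp only [if_true, if_neg hi, hφ0]
          ring
        · refine le_trans (le_of_eq ?_) ((good_of_real (hφ i) (hφ j)).1 (hall _ _))
          rw [WithTop.coe_eq_coe, hc]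
          simp only [if_neg hi, if_neg hj]
          ring)
  have hcs : ∑ i, c i = ∑ i, φ i - (2 * n) * (a / 2) + (a - α) := by
    rw [hc, Finset.sum_add_distrib, Finset.sum_sub_distrib, Finset.sum_const, Finset.card_univ,
      Fintype.card_fin, nsmul_eq_mul, Finset.sum_ite_eq' univ i0, if_pos (mem_univ _)]
    push_cast
    ring
  rw [← S.sq, w.v.map_pow, hτ, two_nsmul, ← WithTop.coe_add, WithTop.coe_le_coe, hcs] at h2
  simp only [hφ] at hgv
  rw [hτ, ← WithTop.coe_sum, ← WithTop.coe_add, WithTop.coe_eq_coe] at hgv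
  have h3 : (2 * (n : ℝ)) * (a / 2) = A := by
    rw [ha]
    field_simp
  rw [h3] at h2
  linarith

/-! ### generation in low degrees -/

theorem good_lowSpan {n : ℕ} {S : Symp R n} {w : CVal R} {a : ℝ}
    (hfix : ∀ f ∈ maximalIdeal R, ∀ g, w.v g ≤ w.v (S.br f g)) {r : WithTop ℝ} {p : R}
    (hp : p ∈ lowSpan w a r) (g : R) : r + w.v g ≤ w.v (S.br p g) + (a : WithTop ℝ) := by
  have hprod : ∀ l : List R, (∀ x ∈ l, x ∈ maximalIdeal R ∧ w.v x ≤ (a : WithTop ℝ)) →
      (l.map fun x => w.v x).sum + w.v g ≤ w.v (S.br l.prod g) + (a : WithTop ℝ) := by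
    intro l
    induction l with
    | nil =>
      intro _
      have h1 : S.br (1 : R) g = 0 := by
        rw [br_skew, Derivation.map_one_eq_zero, neg_zero]
      rw [List.prod_nil, h1, w.v.map_zero, top_add]
      exact le_top
    | cons x l ih =>
      intro hl
      have hx := hl x List.mem_cons_self
      have h1 := ih fun y hy => hl y (List.mem_cons_of_mem _ hy)
      rw [List.prod_cons, List.map_cons, List.sum_cons]
      have h2 : S.br (x * l.prod) g = x * S.br l.prod g + l.prod * S.br x g := by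
        rw [br_skew S (x * l.prod) g, Derivation.leibniz, br_skew S g l.prod, br_skew S g x]
        simp only [smul_eq_mul]
        ring
      have h3 : w.v l.prod = (l.map fun x => w.v x).sum := by
        clear h1 h2 ih hl hx
        induction l with
        | nil => rw [List.prod_nil, List.map_nil, List.sum_nil, w.v.map_one]
        | cons y l ih => rw [List.prod_cons, List.map_cons, List.sum_cons, w.v.map_mul, ih]
      have h4 : w.v x + (l.map fun x => w.v x).sum + w.v g ≤
          w.v (x * S.br l.prod g) + (a : WithTop ℝ) := by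
        rw [w.v.map_mul, add_assoc, add_assoc]
        exact add_le_add le_rfl h1
      have h5 : w.v x + (l.map fun x => w.v x).sum + w.v g ≤
          w.v (l.prod * S.br x g) + (a : WithTop ℝ) := by
        rw [w.v.map_mul, h3, add_comm (w.v x), add_assoc, add_assoc, add_comm (w.v x)]
        exact add_le_add le_rfl (add_le_add (hfix x hx.1 g) hx.2)
      rw [h2]
      rcases min_le_iff.1 (w.v.map_add (x * S.br l.prod g) (l.prod * S.br x g)) with h6 | h6
      · exact h4.trans (add_le_add h6 le_rfl)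
      · exact h5.trans (add_le_add h6 le_rfl)
  refine Submodule.span_induction (p := fun p _ => r + w.v g ≤ w.v (S.br p g) + (a : WithTop ℝ))
    ?_ ?_ ?_ ?_ hp
  · rintro _ ⟨l, hl, rfl, hr⟩
    exact (add_le_add hr le_rfl).trans (hprod l hl)
  · rw [map_zero S.br, Derivation.zero_apply, w.v.map_zero, top_add]
    exact le_top
  · intro x y _ _ hx hy
    rw [br_add_left]
    rcases min_le_iff.1 (w.v.map_add (S.br x g) (S.br y g)) with h6 | h6
    · exact hx.trans (add_le_add h6 le_rfl)
    · exact hy.trans (add_le_add h6 le_rfl)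
  · intro c x _ hx
    rw [map_smul S.br, Derivation.smul_apply, Algebra.smul_def, w.v.map_mul]
    refine hx.trans (add_le_add ?_ le_rfl)
    exact le_add_of_nonneg_left (w.nonneg _)

theorem lowSpan_mono {w : CVal R} {a : ℝ} {r r' : WithTop ℝ} (h : r ≤ r') :
    lowSpan w a r' ≤ lowSpan w a r :=
  Submodule.span_mono fun _ ⟨l, hl, hp, hr⟩ => ⟨l, hl, hp, h.trans hr⟩

/-- approximation -/
theorem approx [IsNoetherianRing R]
    (hres : ∀ f : R, ∃ c : ℂ, f - algebraMap ℂ R c ∈ maximalIdeal R) {w : CVal R} {a : ℝ}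
    (hgen : LowGen w a) (r : ℝ) (g : R) :
    ∃ p ∈ lowSpan w a (w.v g), (r : WithTop ℝ) ≤ w.v (g - p) := by
  obtain ⟨N, hN⟩ := pow_le_idl w r
  haveI : FiniteDimensional ℂ (R ⧸ maximalIdeal R ^ N) := fin_pow hres N
  haveI : FiniteDimensional ℂ (R ⧸ w.idl r) :=
    Module.Finite.of_surjective (Ideal.Quotient.factorₐ ℂ hN).toLinearMap
      (Ideal.Quotient.factor_surjective hN)
  -- the subspace of the quotient given by a valuation ideal
  set W : WithTop ℝ → Submodule ℂ (R ⧸ w.idl r) := fun s =>
    { carrier := {y | ∃ x : R, s ≤ w.v x ∧ Ideal.Quotient.mk (w.idl r) x = y}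
      add_mem' := by
        rintro _ _ ⟨x, hx, rfl⟩ ⟨y, hy, rfl⟩
        exact ⟨x + y, w.v.map_le_add hx hy, map_add _ _ _⟩
      zero_mem' := ⟨0, by rw [w.v.map_zero]; exact le_top, map_zero _⟩
      smul_mem' := by
        rintro c _ ⟨x, hx, rfl⟩
        refine ⟨algebraMap ℂ R c * x, ?_, ?_⟩
        · rw [w.v.map_mul]
          exact hx.trans (le_add_of_nonneg_left (w.nonneg _))
        · rw [map_mul, Algebra.smul_def]
          rfl } with hW
  have key : ∀ (d : ℕ) (g : R), Module.finrank ℂ (W (w.v g)) ≤ d →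
      ∃ p ∈ lowSpan w a (w.v g), (r : WithTop ℝ) ≤ w.v (g - p) := by
    intro d
    induction d with
    | zero =>
      intro g hd
      refine ⟨0, Submodule.zero_mem _, ?_⟩
      rw [sub_zero]
      have h1 : W (w.v g) = ⊥ := Submodule.finrank_eq_zero.1 (Nat.le_zero.1 hd)
      have h2 : Ideal.Quotient.mk (w.idl r) g ∈ W (w.v g) := ⟨g, le_rfl, rfl⟩
      rw [h1, Submodule.mem_bot, Ideal.Quotient.eq_zero_iff_mem] at h2
      exact h2
    | succ d ih =>
      intro g hd
      by_cases hr : (r : WithTop ℝ) ≤ w.v g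
      · exact ⟨0, Submodule.zero_mem _, by rwa [sub_zero]⟩
      · have hg : g ≠ 0 := by
          rintro rfl
          apply hr
          rw [w.v.map_zero]
          exact le_top
        obtain ⟨p, hp, hlt⟩ := hgen g hg
        have h1 : Module.finrank ℂ (W (w.v (g - p))) ≤ d := by
          have h2 : W (w.v (g - p)) < W (w.v g) := by
            refine lt_of_le_of_ne ?_ ?_
            · rintro _ ⟨x, hx, rfl⟩
              exact ⟨x, hlt.le.trans hx, rfl⟩
            · intro heq
              have h3 : Ideal.Quotient.mk (w.idl r) g ∈ W (w.v (g - p)) := by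
                rw [heq]
                exact ⟨g, le_rfl, rfl⟩
              obtain ⟨x, hx, hxg⟩ := h3
              rw [eq_comm, Ideal.Quotient.eq] at hxg
              have h4 : (r : WithTop ℝ) ≤ w.v (g - x) := hxg
              have h5 : w.v g < w.v (g - x) := lt_of_lt_of_le (not_le.1 hr) h4
              have h6 : w.v g < w.v x := lt_of_lt_of_le hlt hx
              have h7 := w.v.map_lt_add h5 h6
              rw [sub_add_cancel] at h7
              exact lt_irrefl _ h7
          have h3 := Submodule.finrank_lt_finrank_of_lt h2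
          omega
        obtain ⟨q, hq, hqr⟩ := ih (g - p) h1
        refine ⟨p + q, Submodule.add_mem _ hp (lowSpan_mono hlt.le hq), ?_⟩
        rwa [← sub_sub]
  exact key _ g le_rfl

/-- If the graded ring is generated in degrees `≤ a`, the bracket has order `≥ - a`. -/
theorem good_of_gen [IsNoetherianRing R]
    (hres : ∀ f : R, ∃ c : ℂ, f - algebraMap ℂ R c ∈ maximalIdeal R) {n : ℕ} {S : Symp R n}
    {w : CVal R} {a : ℝ} (hfix : ∀ f ∈ maximalIdeal R, ∀ g, w.v g ≤ w.v (S.br f g))
    (hgen : LowGen w a) : OrderGe S w a := by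
  intro f g
  obtain ⟨c, hc⟩ := hres g
  set g' := g - algebraMap ℂ R c with hg'
  have hbr : ∀ f, S.br f g = S.br f g' := by
    intro f
    rw [hg', map_sub, Derivation.map_algebraMap, sub_zero]
  -- it suffices to treat elements of the maximal ideal
  have hmain : w.v f + w.v g' ≤ w.v (S.br f g') + (a : WithTop ℝ) := by
    by_cases hf : f = 0
    · rw [hf, map_zero S.br, Derivation.zero_apply, w.v.map_zero, top_add, top_add]
    by_cases hg0 : g' = 0
    · rw [hg0, Derivation.map_zero, w.v.map_zero, top_add]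
      exact le_top
    obtain ⟨α, hα⟩ := real_val w hf
    obtain ⟨β, hβ⟩ := real_val w hg0
    obtain ⟨p, hp, hr⟩ := approx hres hgen (α + β - a) f
    have h1 : S.br f g' = S.br p g' + S.br (f - p) g' := by
      rw [← br_add_left, add_sub_cancel]
    have h2 := good_lowSpan hfix hp g'
    have h3 : ((α + β - a : ℝ) : WithTop ℝ) ≤ w.v (S.br (f - p) g') := by
      rw [br_skew, AddValuation.map_neg]
      exact hr.trans (hfix g' hc _)
    have h4 : w.v f + w.v g' ≤ w.v (S.br (f - p) g') + (a : WithTop ℝ) := by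
      rw [hα, hβ, ← WithTop.coe_add]
      refine le_trans (le_of_eq ?_) (add_le_add h3 le_rfl)
      rw [← WithTop.coe_add, WithTop.coe_eq_coe]
      ring
    rw [h1]
    rcases min_le_iff.1 (w.v.map_add (S.br p g') (S.br (f - p) g')) with h6 | h6
    · exact h2.trans (add_le_add h6 le_rfl)
    · exact h4.trans (add_le_add h6 le_rfl)
  rw [hbr]
  refine le_trans ?_ hmain
  -- `v g ≤ v g'`
  refine add_le_add le_rfl ?_
  by_cases hc0 : c = 0
  · rw [hg', hc0, map_zero, sub_zero]
  · have h1 : IsUnit g := by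
      by_contra hnu
      have h2 : g ∈ maximalIdeal R := hnu
      have h3 := (maximalIdeal R).sub_mem h2 hc
      rw [hg', sub_sub_cancel] at h3
      have h4 : IsUnit (algebraMap ℂ R c) := (isUnit_iff_ne_zero.2 hc0).map _
      exact h3 h4
    rw [unit_val w h1]
    exact w.nonneg _

end

end Pool.Agent.Helper11.SY
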