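import Pool.Agent.Helper11.SY.Ex

/-!
Flows of derivations of complete local rings.
-/

set_option autoImplicit false

namespace Pool.Agent.Helper11.SY

open Module

noncomputable section

variable {R : Type*} [CommRing R] [Algebra ℂ R]

theorem exists_Dk (D : Derivation ℂ R R) (J : Ideal R) (hJ : ∀ x ∈ J, D x ∈ J) :
    ∃ D' : (R ⧸ J) →ₗ[ℂ] (R ⧸ J), ∀ r, D' (Ideal.Quotient.mk J r) = Ideal.Quotient.mk J (D r) := by
  have h1 : ∀ r r', Ideal.Quotient.mk J r = Ideal.Quotient.mk J r' →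
      Ideal.Quotient.mk J (D r) = Ideal.Quotient.mk J (D r') := by
    intro r r' h
    rw [Ideal.Quotient.eq] at h ⊢
    rw [← map_sub]
    exact hJ _ h
  choose s hs using fun x : R ⧸ J => Ideal.Quotient.mk_surjective x
  have h2 : ∀ r, Ideal.Quotient.mk J (D (s (Ideal.Quotient.mk J r))) =
      Ideal.Quotient.mk J (D r) := fun r => h1 _ _ (hs _)
  refine ⟨{ toFun := fun x => Ideal.Quotient.mk J (D (s x)), map_add' := ?_, map_smul' := ?_ }, h2⟩
  · intro x y
    rw [← map_add, ← map_add]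
    apply h1
    rw [hs, map_add, hs, hs]
  · intro c x
    have h3 : Ideal.Quotient.mk J (D (s (c • x))) = Ideal.Quotient.mk J (D (c • s x)) := by
      apply h1
      rw [hs, Algebra.smul_def, Algebra.smul_def, map_mul, hs]
      rfl
    rw [h3, Derivation.map_smul, Algebra.smul_def, map_mul, RingHom.id_apply, Algebra.smul_def]
    rfl

theorem pow_stable {I : Ideal R} (D : Derivation ℂ R R) (hI : ∀ x ∈ I, D x ∈ I) (k : ℕ) :
    ∀ x ∈ I ^ k, D x ∈ I ^ k := by
  induction k with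
  | zero =>
    intro x _
    rw [pow_zero, Ideal.one_eq_top]
    trivial
  | succ k ih =>
    intro x hx
    rw [pow_succ] at hx ⊢
    refine Submodule.mul_induction_on hx (fun a ha b hb => ?_) (fun a b ha hb => ?_)
    · rw [Derivation.leibniz]
      refine Ideal.add_mem _ ?_ ?_
      · exact Ideal.mul_mem_mul ha (hI b hb)
      · rw [smul_eq_mul, mul_comm b]
        exact Ideal.mul_mem_mul (ih a ha) hb
    · rw [map_add]
      exact Ideal.add_mem _ ha hb

variable (I : Ideal R) [IsAdicComplete I R] (D : Derivation ℂ R R) (hI : ∀ x ∈ I, D x ∈ I)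

theorem adic_ext {x y : R} (h : ∀ k, Ideal.Quotient.mk (I ^ k) x = Ideal.Quotient.mk (I ^ k) y) :
    x = y := by
  rw [IsHausdorff.eq_iff_smodEq (I := I)]
  intro n
  rw [SModEq.sub_mem, smul_eq_mul, Ideal.mul_top]
  exact Ideal.Quotient.eq.1 (h n)

theorem adic_lim (x : ∀ k, R ⧸ I ^ k)
    (hx : ∀ (m n : ℕ) (h : m ≤ n), Ideal.Quotient.factor (Ideal.pow_le_pow_right h) (x n) = x m) :
    ∃ L : R, ∀ k, Ideal.Quotient.mk (I ^ k) L = x k := by
  choose g hg using fun k => Ideal.Quotient.mk_surjective (x k)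
  obtain ⟨L, hL⟩ := IsPrecomplete.prec (I := I) (M := R) inferInstance (f := g) (by
    intro m n hmn
    rw [SModEq.sub_mem, smul_eq_mul, Ideal.mul_top, ← Ideal.Quotient.eq, hg, ← hx m n hmn, ← hg n]
    rfl)
  refine ⟨L, fun k => ?_⟩
  have h1 := hL k
  rw [SModEq.sub_mem, smul_eq_mul, Ideal.mul_top, ← Ideal.Quotient.eq, hg] at h1
  exact h1.symm

/-- the induced endomorphism -/
def Dk (k : ℕ) : (R ⧸ I ^ k) →ₗ[ℂ] (R ⧸ I ^ k) := (exists_Dk D (I ^ k) (pow_stable D hI k)).choose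

theorem Dk_mk (k : ℕ) (r : R) :
    Dk I D hI k (Ideal.Quotient.mk (I ^ k) r) = Ideal.Quotient.mk (I ^ k) (D r) :=
  (exists_Dk D (I ^ k) (pow_stable D hI k)).choose_spec r

theorem Dk_mul (k : ℕ) (x y : R ⧸ I ^ k) :
    Dk I D hI k (x * y) = x * Dk I D hI k y + Dk I D hI k x * y := by
  obtain ⟨a, rfl⟩ := Ideal.Quotient.mk_surjective x
  obtain ⟨b, rfl⟩ := Ideal.Quotient.mk_surjective y
  rw [← map_mul, Dk_mk, Dk_mk, Dk_mk, ← map_mul, ← map_mul, ← map_add, Derivation.leibniz]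
  congr 1
  rw [smul_eq_mul, smul_eq_mul, mul_comm b]

variable (hfin : ∀ k, FiniteDimensional ℂ (R ⧸ I ^ k))

include hI hfin

theorem exists_fl (t : ℂ) (f : R) : ∃ L : R, ∀ k,
    Ideal.Quotient.mk (I ^ k) L = ex (Dk I D hI k) t (Ideal.Quotient.mk (I ^ k) f) := by
  refine adic_lim I _ fun m n h => ?_
  have h1 := map_ex (Dk I D hI n) (Dk I D hI m)
    ((Ideal.Quotient.factorₐ ℂ (Ideal.pow_le_pow_right (I := I) h)).toLinearMap) (by
      intro x
      obtain ⟨a, rfl⟩ := Ideal.Quotient.mk_surjective x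
      rw [Dk_mk]
      exact (Dk_mk I D hI m a).symm) t (Ideal.Quotient.mk (I ^ n) f)
  exact h1

/-- the flow -/
def fl (t : ℂ) (f : R) : R := (exists_fl I D hI hfin t f).choose

theorem mk_fl (t : ℂ) (f : R) (k : ℕ) :
    Ideal.Quotient.mk (I ^ k) (fl I D hI hfin t f) =
      ex (Dk I D hI k) t (Ideal.Quotient.mk (I ^ k) f) :=
  (exists_fl I D hI hfin t f).choose_spec k

theorem fl_fl (s t : ℂ) (f : R) :
    fl I D hI hfin s (fl I D hI hfin t f) = fl I D hI hfin (s + t) f := by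
  refine adic_ext I fun k => ?_
  rw [mk_fl, mk_fl, mk_fl, ex_ex]

theorem fl_zero (f : R) : fl I D hI hfin 0 f = f := by
  refine adic_ext I fun k => ?_
  rw [mk_fl, ex_zero]

/-- the flow as an automorphism -/
def flE (t : ℂ) : R ≃ₐ[ℂ] R where
  toFun := fl I D hI hfin t
  invFun := fl I D hI hfin (-t)
  left_inv f := by rw [fl_fl, neg_add_cancel, fl_zero]
  right_inv f := by rw [fl_fl, add_neg_cancel, fl_zero]
  map_mul' f g := by
    refine adic_ext I fun k => ?_
    rw [mk_fl, map_mul, ex_mul _ (Dk_mul I D hI k), map_mul, mk_fl, mk_fl]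
  map_add' f g := by
    refine adic_ext I fun k => ?_
    rw [mk_fl, map_add, ex_add, map_add, mk_fl, mk_fl]
  commutes' c := by
    have h1 : ∀ k, ex (Dk I D hI k) t 1 = 1 := by
      intro k
      have h2 := ex_mul _ (Dk_mul I D hI k) t 1 1
      rw [mul_one] at h2
      have h3 := ex_ex (Dk I D hI k) (-t) t 1
      rw [neg_add_cancel, ex_zero] at h3
      have h4 := ex_mul _ (Dk_mul I D hI k) (-t) (ex (Dk I D hI k) t 1) (1)
      rw [mul_one, h3, one_mul] at h4
      have h5 := ex_ex (Dk I D hI k) t (-t) 1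
      rw [← h4, add_neg_cancel, ex_zero] at h5
      exact h5
    refine adic_ext I fun k => ?_
    rw [mk_fl]
    have h2 : Ideal.Quotient.mk (I ^ k) (algebraMap ℂ R c) = c • (1 : R ⧸ I ^ k) := by
      rw [Algebra.smul_def, mul_one]
      rfl
    rw [h2, ex_smul, h1]

/-- THEOREM: an ideal which is stable under all automorphisms and contains a power of `I` is stable
under every derivation preserving `I`. -/
theorem der_stable (J : Ideal R) (n : ℕ) (hn : I ^ n ≤ J)
    (hJ : ∀ σ : R ≃ₐ[ℂ] R, ∀ x ∈ J, σ x ∈ J) {x : R} (hx : x ∈ J) : D x ∈ J := by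
  set W : Submodule ℂ (R ⧸ I ^ n) :=
    { carrier := {y | ∃ r ∈ J, Ideal.Quotient.mk (I ^ n) r = y}
      add_mem' := by
        rintro _ _ ⟨a, ha, rfl⟩ ⟨b, hb, rfl⟩
        exact ⟨a + b, J.add_mem ha hb, map_add _ _ _⟩
      zero_mem' := ⟨0, J.zero_mem, map_zero _⟩
      smul_mem' := by
        rintro c _ ⟨a, ha, rfl⟩
        refine ⟨algebraMap ℂ R c * a, J.mul_mem_left _ ha, ?_⟩
        rw [map_mul, Algebra.smul_def]
        rfl } with hW
  have h1 : ∀ t, ∀ y ∈ W, ex (Dk I D hI n) t y ∈ W := by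
    rintro t _ ⟨a, ha, rfl⟩
    rw [← mk_fl I D hI hfin t a n]
    exact ⟨_, hJ (flE I D hI hfin t) a ha, rfl⟩
  have h2 : Dk I D hI n (Ideal.Quotient.mk (I ^ n) x) ∈ W := stable h1 ⟨x, hx, rfl⟩
  rw [Dk_mk] at h2
  obtain ⟨r, hr, h3⟩ := h2
  rw [eq_comm, Ideal.Quotient.eq] at h3
  have h4 := J.add_mem (hn h3) hr
  rwa [sub_add_cancel] at h4

end

end Pool.Agent.Helper11.SY
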