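import Mathlib

/-!
Definitions for MP_e1889a_ag: symplectic germs, valuations, log discrepancy, normalized volume.

`R` is the completed local ring of a point `x` of a complex variety of dimension `2 n`.
-/

set_option autoImplicit false

namespace Pool.Agent.Helper11.SY

open IsLocalRing Filter

noncomputable section

variable (R : Type) [CommRing R] [Algebra ℂ R]

/-- alternating multiderivations `R ^ d → R` (`d`-vector fields) -/
def IsMultiDer (d : ℕ) (δ : R [⋀^Fin d]→ₗ[ℂ] R) : Prop :=
  ∀ (f : Fin d → R) (i : Fin d) (x y : R),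
    δ (Function.update f i (x * y)) =
      x * δ (Function.update f i y) + y * δ (Function.update f i x)

/-- A symplectic structure on the germ, given by its Poisson bracket `{f, g} = br f g`. `th` is the
Pfaffian of the bracket, i.e. the `2n`-vector field dual to `ω ^ n / n!`; `gen` says that it generates
the module of `2n`-vector fields, i.e. that `ω` is nondegenerate on the regular locus. -/
structure Symp (n : ℕ) where
  br : R →ₗ[ℂ] Derivation ℂ R R
  self : ∀ f, br f f = 0
  jac : ∀ f g h, br f (br g h) = br (br f g) h + br g (br f h)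
  th : R [⋀^Fin (2 * n)]→ₗ[ℂ] R
  der : IsMultiDer R (2 * n) th
  sq : ∀ f : Fin (2 * n) → R, th f ^ 2 = (Matrix.of fun i j => br (f i) (f j)).det
  gen : ∀ δ : R [⋀^Fin (2 * n)]→ₗ[ℂ] R, IsMultiDer R (2 * n) δ → ∃ h : R, ∀ f, δ f = h * th f

variable [IsLocalRing R]

/-- real valuations centred at the point -/
structure CVal where
  v : AddValuation R (WithTop ℝ)
  nonneg : ∀ f, 0 ≤ v f
  top : ∀ f, v f = ⊤ → f = 0
  pos : ∀ f, 0 < v f ↔ f ∈ maximalIdeal R

variable {R}

/-- the valuation ideal `{v ≥ r}` -/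
def CVal.idl (w : CVal R) (r : ℝ) : Ideal R where
  carrier := {f | (r : WithTop ℝ) ≤ w.v f}
  add_mem' ha hb := w.v.map_le_add ha hb
  zero_mem' := by
    rw [Set.mem_setOf_eq, w.v.map_zero]
    exact le_top
  smul_mem' c f hf := by
    rw [Set.mem_setOf_eq, smul_eq_mul, w.v.map_mul]
    rw [Set.mem_setOf_eq] at hf
    have h1 := add_le_add (w.nonneg c) hf
    rwa [zero_add] at h1

/-- the volume of a valuation of a germ of dimension `d` -/
def CVal.vol (w : CVal R) (d : ℕ) : ENNReal :=
  limsup (fun k : ℕ =>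
    ((d.factorial * Module.finrank ℂ (R ⧸ w.idl k) : ℕ) : ENNReal) / (k : ENNReal) ^ d) atTop

/-- `A` is the log discrepancy of the valuation (of a quasi-monomial valuation, with respect to the
generator `ω ^ n / n!` of the canonical module): `v (df_1 ∧ .. ∧ df_2n) ≥ ∑ v (f_i)` with equality if
the initial forms are algebraically independent, and `df_1 ∧ .. ∧ df_2n = th f • ω ^ n / n!`. -/
structure LogDisc {n : ℕ} (S : Symp R n) (w : CVal R) (A : ℝ) : Prop where
  pos : 0 < A
  le : ∀ f : Fin (2 * n) → R, ∑ i, w.v (f i) ≤ w.v (S.th f) + (A : WithTop ℝ)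
  eq : ∀ f ∈ maximalIdeal R, f ≠ 0 → ∃ (g : Fin (2 * n) → R) (i : Fin (2 * n)), g i = f ∧
    S.th g ≠ 0 ∧ w.v (S.th g) + (A : WithTop ℝ) = ∑ i, w.v (g i)

/-- normalized volume -/
def nvol (n : ℕ) (w : CVal R) (A : ℝ) : ENNReal := ENNReal.ofReal A ^ (2 * n) * w.vol (2 * n)

/-- `w`, with log discrepancy `A`, is the minimizer of the normalized volume, unique up to scaling -/
structure IsMinimizer {n : ℕ} (S : Symp R n) (w : CVal R) (A : ℝ) : Prop where
  disc : LogDisc S w A
  min : ∀ (w' : CVal R) (A' : ℝ), LogDisc S w' A' → nvol n w A ≤ nvol n w' A'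
  unique : ∀ (w' : CVal R) (A' : ℝ), LogDisc S w' A' → nvol n w' A' = nvol n w A →
    ∃ c : ℝ, 0 < c ∧ ∀ (f : R) (x : ℝ), w.v f = (x : WithTop ℝ) → w'.v f = ((c * x : ℝ) : WithTop ℝ)

/-- the Hamiltonian vector field of `f` vanishes at the point -/
def Fixes {n : ℕ} (S : Symp R n) (f : R) : Prop := ∀ g ∈ maximalIdeal R, S.br f g ∈ maximalIdeal R

/-- The bracket has order at least `- a` for the valuation: `v {f, g} ≥ v f + v g - a`; so it induces a
bracket of degree `- a` on the associated graded ring. -/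
def OrderGe {n : ℕ} (S : Symp R n) (w : CVal R) (a : ℝ) : Prop :=
  ∀ f g : R, w.v f + w.v g ≤ w.v (S.br f g) + (a : WithTop ℝ)

/-- `2 n - 2` functions with valuation at most `a` whose Hamiltonian vector fields vanish at the point,
such that the bracket of degree `- a` is nondegenerate on their initial forms: the determinant of
`{f_i, f_j}` has the valuation `∑ (v f_i + v f_j - a)` (the sum over the rows). -/
def LowRank {n : ℕ} (S : Symp R n) (w : CVal R) (a : ℝ) : Prop :=
  ∃ F : Fin (2 * n - 2) → R, (∀ i, Fixes S (F i) ∧ w.v (F i) ≤ (a : WithTop ℝ)) ∧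
    (Matrix.of fun i j => S.br (F i) (F j)).det ≠ 0 ∧
    w.v (Matrix.of fun i j => S.br (F i) (F j)).det + (((2 * n - 2 : ℕ) * a : ℝ) : WithTop ℝ) ≤
      2 • ∑ i, w.v (F i)

/-- `2 n - 1` functions `F i`, `i ≠ j`, with valuation at most `a`, whose Hamiltonian vector fields vanish
at the point and whose initial forms are algebraically independent (in the form of `LogDisc.eq`:
`dF_1 ∧ .. ∧ dF_2n` has the valuation `∑ v (F i)` for some choice of the remaining function `F j`). -/
def LowIndep {n : ℕ} (S : Symp R n) (w : CVal R) (A a : ℝ) : Prop :=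
  ∃ (F : Fin (2 * n) → R) (j : Fin (2 * n)),
    (∀ i, i ≠ j → Fixes S (F i) ∧ w.v (F i) ≤ (a : WithTop ℝ)) ∧
    S.th F ≠ 0 ∧ w.v (S.th F) + (A : WithTop ℝ) = ∑ i, w.v (F i)

/-- linear combinations of products of elements of valuation at most `a` of the maximal ideal, the
products having degree at least `r` -/
def lowSpan (w : CVal R) (a : ℝ) (r : WithTop ℝ) : Submodule ℂ R :=
  Submodule.span ℂ {p | ∃ l : List R, (∀ x ∈ l, x ∈ maximalIdeal R ∧ w.v x ≤ (a : WithTop ℝ)) ∧
    l.prod = p ∧ r ≤ (l.map fun x => w.v x).sum}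

/-- the associated graded ring is generated by elements of degree at most `a` -/
def LowGen (w : CVal R) (a : ℝ) : Prop :=
  ∀ g : R, g ≠ 0 → ∃ p ∈ lowSpan w a (w.v g), w.v g < w.v (g - p)

end

end Pool.Agent.Helper11.SY
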