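import Mathlib

/-!
Exponentials of endomorphisms of finite dimensional complex vector spaces and algebras, without a norm.
-/

set_option autoImplicit false

namespace Pool.Agent.Helper11.SY

open Finset Module

noncomputable section

/-! ### double series -/

theorem dbl_summable {a : ℕ × ℕ → ℂ} {C M : ℝ}
    (h : ∀ p, ‖a p‖ ≤ C * (M ^ p.1 / p.1.factorial) * (M ^ p.2 / p.2.factorial)) : Summable a := by
  have h1 : Summable fun n : ℕ => |M| ^ n / n.factorial := Real.summable_pow_div_factorial |M|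
  have h2 : Summable fun p : ℕ × ℕ => (|M| ^ p.1 / p.1.factorial) * (|M| ^ p.2 / p.2.factorial) :=
    h1.mul_of_nonneg h1 (fun n => by positivity) (fun n => by positivity)
  refine Summable.of_norm_bounded (h2.mul_left |C|) fun p => (h p).trans ?_
  rw [mul_assoc]
  refine (le_abs_self _).trans ?_
  rw [abs_mul, abs_mul, abs_div, abs_div, abs_pow, abs_pow, Nat.abs_cast, Nat.abs_cast]

theorem dbl_tsum {a : ℕ × ℕ → ℂ} (h : Summable a) :
    ∑' p, ∑' q, a (p, q) = ∑' n, ∑ p ∈ antidiagonal n, a p := by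
  rw [← h.tsum_prod]
  have h1 := HasAntidiagonal.sigmaAntidiagonalEquivProd (A := ℕ)
  have h2 : Summable fun x : Σ n : ℕ, antidiagonal n => a (HasAntidiagonal.sigmaAntidiagonalEquivProd x) :=
    (HasAntidiagonal.sigmaAntidiagonalEquivProd (A := ℕ)).summable_iff.2 h
  rw [← (HasAntidiagonal.sigmaAntidiagonalEquivProd (A := ℕ)).tsum_eq a, h2.tsum_sigma]
  refine tsum_congr fun n => ?_
  rw [tsum_fintype]
  exact Finset.sum_coe_sort (antidiagonal n) a

theorem chs {n : ℕ} {p : ℕ × ℕ} (hp : p.1 + p.2 = n) :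
    (n.choose p.1 : ℂ) = n.factorial / (p.1.factorial * p.2.factorial) := by
  rw [eq_div_iff (by
    exact_mod_cast mul_ne_zero (Nat.factorial_ne_zero _) (Nat.factorial_ne_zero _))]
  have h9 := Nat.add_choose_mul_factorial_mul_factorial p.1 p.2
  have h1 : (p.1 + p.2).choose p.1 = (p.1 + p.2).choose p.2 := Nat.choose_symm_add
  rw [← h1, hp] at h9
  rw [← h9]
  push_cast
  ring

/-! ### the exponential -/

variable {V : Type*} [AddCommGroup V] [Module ℂ V] [FiniteDimensional ℂ V]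

theorem bound (D : V →ₗ[ℂ] V) : ∃ M : ℝ, 0 ≤ M ∧ ∀ l : V →ₗ[ℂ] ℂ, ∀ x : V, ∃ C : ℝ, 0 ≤ C ∧
    ∀ j, ‖l ((D ^ j) x)‖ ≤ C * M ^ j := by
  set b := Module.finBasis ℂ V
  set N : V → ℝ := fun y => ∑ i, ‖b.repr y i‖ with hN
  have hN0 : ∀ y, 0 ≤ N y := fun y => Finset.sum_nonneg fun i _ => norm_nonneg _
  have hl : ∀ (W : Type) (nW : NormedAddCommGroup W) (_ : NormedSpace ℂ W) (l : V →ₗ[ℂ] W) (y : V),
      ‖l y‖ ≤ (∑ i, ‖l (b i)‖) * N y := by
    intro W nW _ l y
    conv_lhs => rw [← b.sum_repr y, map_sum]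
    refine (norm_sum_le _ _).trans ?_
    rw [Finset.sum_mul]
    refine Finset.sum_le_sum fun i _ => ?_
    rw [map_smul, norm_smul, mul_comm]
    refine mul_le_mul_of_nonneg_left ?_ (norm_nonneg _)
    exact Finset.single_le_sum (f := fun i => ‖b.repr y i‖) (fun i _ => norm_nonneg _) (mem_univ i)
  set M : ℝ := ∑ i, ∑ k, ‖b.repr (D (b i)) k‖ with hM
  have hM0 : 0 ≤ M := Finset.sum_nonneg fun i _ => Finset.sum_nonneg fun k _ => norm_nonneg _
  have hD : ∀ y, N (D y) ≤ M * N y := by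
    intro y
    rw [hN, hM]
    simp only
    calc ∑ k, ‖b.repr (D y) k‖ ≤ ∑ k, (∑ i, ‖b.repr (D (b i)) k‖) * N y := by
          refine Finset.sum_le_sum fun k _ => ?_
          exact hl ℂ inferInstance inferInstance ((b.coord k).comp D) y
      _ = _ := by
          rw [← Finset.sum_mul, Finset.sum_comm]
  have hj : ∀ j y, N ((D ^ j) y) ≤ M ^ j * N y := by
    intro j
    induction j with
    | zero => intro y; simp
    | succ j ih =>
      intro y
      rw [pow_succ', Module.End.mul_apply]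
      refine (hD _).trans ?_
      rw [pow_succ', mul_assoc]
      exact mul_le_mul_of_nonneg_left (ih y) hM0
  refine ⟨M, hM0, fun l x => ⟨(∑ i, ‖l (b i)‖) * N x,
    mul_nonneg (Finset.sum_nonneg fun i _ => norm_nonneg _) (hN0 x), fun j => ?_⟩⟩
  refine (hl ℂ inferInstance inferInstance l _).trans ?_
  rw [mul_assoc, mul_comm (N x)]
  exact mul_le_mul_of_nonneg_left (hj j x) (Finset.sum_nonneg fun i _ => norm_nonneg _)

/-- the coefficient -/
def cf (D : V →ₗ[ℂ] V) (t : ℂ) (x : V) (l : V →ₗ[ℂ] ℂ) (j : ℕ) : ℂ :=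
  t ^ j / j.factorial * l ((D ^ j) x)

theorem cf_summable (D : V →ₗ[ℂ] V) (t : ℂ) (x : V) (l : V →ₗ[ℂ] ℂ) : Summable (cf D t x l) := by
  obtain ⟨M, hM, h⟩ := bound D
  obtain ⟨C, hC, hb⟩ := h l x
  refine Summable.of_norm_bounded ((Real.summable_pow_div_factorial (‖t‖ * M)).mul_left C) ?_
  intro j
  rw [cf, norm_mul, norm_div, norm_pow, Complex.norm_natCast]
  calc ‖t‖ ^ j / j.factorial * ‖l ((D ^ j) x)‖ ≤ ‖t‖ ^ j / j.factorial * (C * M ^ j) :=
        mul_le_mul_of_nonneg_left (hb j) (by positivity)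
    _ = C * ((‖t‖ * M) ^ j / j.factorial) := by
        rw [mul_pow]
        ring

/-- `exp (t D) x` -/
def ex (D : V →ₗ[ℂ] V) (t : ℂ) (x : V) : V :=
  (Module.evalEquiv ℂ V).symm
    { toFun := fun l => ∑' j, cf D t x l j
      map_add' := fun l l' => by
        rw [← (cf_summable D t x l).tsum_add (cf_summable D t x l')]
        refine tsum_congr fun j => ?_
        simp only [cf, LinearMap.add_apply, mul_add]
      map_smul' := fun c l => by
        rw [RingHom.id_apply, smul_eq_mul, ← tsum_mul_left]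
        refine tsum_congr fun j => ?_
        simp only [cf, LinearMap.smul_apply, smul_eq_mul]
        ring }

theorem apply_ex (D : V →ₗ[ℂ] V) (t : ℂ) (x : V) (l : V →ₗ[ℂ] ℂ) :
    l (ex D t x) = ∑' j, cf D t x l j := by
  rw [ex]
  exact Module.apply_evalEquiv_symm_apply (R := ℂ) (M := V) l _

theorem ext_dual {x y : V} (h : ∀ l : V →ₗ[ℂ] ℂ, l x = l y) : x = y := by
  rw [← sub_eq_zero]
  exact (Module.forall_dual_apply_eq_zero_iff ℂ _).1 fun l => by rw [map_sub, h l, sub_self]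

theorem ex_zero (D : V →ₗ[ℂ] V) (x : V) : ex D 0 x = x := by
  refine ext_dual fun l => ?_
  rw [apply_ex, tsum_eq_single 0]
  · simp [cf]
  · intro j hj
    simp [cf, hj]

theorem ex_add (D : V →ₗ[ℂ] V) (t : ℂ) (x y : V) : ex D t (x + y) = ex D t x + ex D t y := by
  refine ext_dual fun l => ?_
  rw [map_add, apply_ex, apply_ex, apply_ex, ← (cf_summable D t x l).tsum_add (cf_summable D t y l)]
  refine tsum_congr fun j => ?_
  simp only [cf, map_add, mul_add]

theorem ex_smul (D : V →ₗ[ℂ] V) (t c : ℂ) (x : V) : ex D t (c • x) = c • ex D t x := by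
  refine ext_dual fun l => ?_
  rw [map_smul, apply_ex, apply_ex, smul_eq_mul, ← tsum_mul_left]
  refine tsum_congr fun j => ?_
  simp only [cf, map_smul, smul_eq_mul]
  ring

/-- naturality -/
theorem map_ex {W : Type*} [AddCommGroup W] [Module ℂ W] [FiniteDimensional ℂ W]
    (D : V →ₗ[ℂ] V) (D' : W →ₗ[ℂ] W) (p : V →ₗ[ℂ] W) (h : ∀ x, p (D x) = D' (p x)) (t : ℂ) (x : V) :
    p (ex D t x) = ex D' t (p x) := by
  have hj : ∀ j x, p ((D ^ j) x) = (D' ^ j) (p x) := by
    intro j
    induction j with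
    | zero => intro x; simp
    | succ j ih =>
      intro x
      rw [pow_succ', Module.End.mul_apply, h, ih, pow_succ', Module.End.mul_apply]
  refine ext_dual fun l => ?_
  rw [apply_ex]
  have h1 := apply_ex D t x (l.comp p)
  rw [LinearMap.comp_apply] at h1
  rw [h1]
  refine tsum_congr fun j => ?_
  simp only [cf, LinearMap.comp_apply, hj]

theorem ex_ex (D : V →ₗ[ℂ] V) (s t : ℂ) (x : V) : ex D s (ex D t x) = ex D (s + t) x := by
  refine ext_dual fun l => ?_
  set a : ℕ × ℕ → ℂ := fun p =>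
    s ^ p.1 / p.1.factorial * (t ^ p.2 / p.2.factorial * l ((D ^ (p.1 + p.2)) x)) with ha
  have h1 : ∀ j, cf D s (ex D t x) l j = ∑' q, a (j, q) := by
    intro j
    rw [cf]
    have h2 := apply_ex D t x (l.comp (D ^ j))
    rw [LinearMap.comp_apply] at h2
    rw [h2, ← tsum_mul_left]
    refine tsum_congr fun q => ?_
    simp only [ha, cf, LinearMap.comp_apply]
    rw [pow_add, Module.End.mul_apply]
  obtain ⟨M, hM, hb⟩ := bound D
  obtain ⟨C, hC, hb⟩ := hb l x
  have hs : Summable a := by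
    refine dbl_summable (C := C) (M := (‖s‖ + ‖t‖) * M) fun p => ?_
    rw [ha]
    simp only [norm_mul, norm_div, norm_pow, Complex.norm_natCast]
    have h3 := hb (p.1 + p.2)
    have h4 : ‖s‖ ^ p.1 ≤ (‖s‖ + ‖t‖) ^ p.1 :=
      pow_le_pow_left₀ (norm_nonneg _) (le_add_of_nonneg_right (norm_nonneg _)) _
    have h5 : ‖t‖ ^ p.2 ≤ (‖s‖ + ‖t‖) ^ p.2 :=
      pow_le_pow_left₀ (norm_nonneg _) (le_add_of_nonneg_left (norm_nonneg _)) _
    calc ‖s‖ ^ p.1 / p.1.factorial * (‖t‖ ^ p.2 / p.2.factorial * ‖l ((D ^ (p.1 + p.2)) x)‖)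
        ≤ (‖s‖ + ‖t‖) ^ p.1 / p.1.factorial *
          ((‖s‖ + ‖t‖) ^ p.2 / p.2.factorial * (C * M ^ (p.1 + p.2))) := by
          gcongr
      _ = _ := by
          rw [mul_pow, mul_pow, pow_add]
          ring
  rw [apply_ex, apply_ex]
  calc ∑' j, cf D s (ex D t x) l j = ∑' p, ∑' q, a (p, q) := tsum_congr h1
    _ = ∑' n, ∑ p ∈ antidiagonal n, a p := dbl_tsum hs
    _ = _ := by
      refine tsum_congr fun n => ?_
      rw [cf, Finset.sum_congr rfl (g := fun p => (s ^ p.1 * t ^ p.2 * n.choose p.1) *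
        ((n.factorial : ℂ)⁻¹ * l ((D ^ n) x)))]
      · rw [← Finset.sum_mul]
        have h6 := (Commute.all s t).add_pow' n
        simp only [nsmul_eq_mul] at h6
        rw [div_mul_eq_mul_div, mul_div_assoc, h6]
        congr 1
        · exact Finset.sum_congr rfl fun p _ => by ring
        · rw [div_eq_inv_mul]
      · intro p hp
        rw [HasAntidiagonal.mem_antidiagonal] at hp
        rw [ha]
        simp only
        rw [hp]
        have h7 := chs hp
        rw [h7]
        have h10 : (n.factorial : ℂ) ≠ 0 := by exact_mod_cast Nat.factorial_ne_zero n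
        field_simp

/-- iterated Leibniz rule -/
theorem leib {A : Type*} [CommRing A] [Algebra ℂ A] (D : A →ₗ[ℂ] A)
    (hD : ∀ x y, D (x * y) = x * D y + D x * y) (n : ℕ) (x y : A) :
    (D ^ n) (x * y) = ∑ p ∈ antidiagonal n, n.choose p.1 • ((D ^ p.1) x * (D ^ p.2) y) := by
  induction n with
  | zero => simp
  | succ n ih =>
    rw [pow_succ', Module.End.mul_apply, ih, map_sum,
      Finset.sum_antidiagonal_choose_succ_nsmul (fun i j => (D ^ i) x * (D ^ j) y) n,
      ← Finset.sum_add_distrib]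
    refine Finset.sum_congr rfl fun p hp => ?_
    rw [HasAntidiagonal.mem_antidiagonal] at hp
    rw [map_nsmul, hD, nsmul_add, pow_succ' D p.2, pow_succ' D p.1, Module.End.mul_apply,
      Module.End.mul_apply]
    have h1 : n.choose p.1 = n.choose p.2 := by
      rw [← hp]
      exact Nat.choose_symm_add
    rw [← h1]

theorem ex_mul {A : Type*} [CommRing A] [Algebra ℂ A] [FiniteDimensional ℂ A] (D : A →ₗ[ℂ] A)
    (hD : ∀ x y, D (x * y) = x * D y + D x * y) (t : ℂ) (x y : A) :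
    ex D t (x * y) = ex D t x * ex D t y := by
  refine ext_dual fun l => ?_
  set a : ℕ × ℕ → ℂ := fun p =>
    t ^ p.1 / p.1.factorial * (t ^ p.2 / p.2.factorial * l ((D ^ p.1) x * (D ^ p.2) y)) with ha
  have h1 : ∀ j, cf D t x (l.comp (LinearMap.mulRight ℂ (ex D t y))) j = ∑' q, a (j, q) := by
    intro j
    rw [cf, LinearMap.comp_apply, LinearMap.mulRight_apply]
    have h2 := apply_ex D t y (l.comp (LinearMap.mulLeft ℂ ((D ^ j) x)))
    rw [LinearMap.comp_apply, LinearMap.mulLeft_apply] at h2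
    rw [h2, ← tsum_mul_left]
    rfl
  obtain ⟨M, hM, hb⟩ := bound D
  -- a common bound: finitely many functionals
  have hs : Summable a := by
    set b := Module.finBasis ℂ A
    have h3 : ∀ i : Fin (Module.finrank ℂ A), ∃ C : ℝ, 0 ≤ C ∧
        ∀ j, ‖b.coord i ((D ^ j) x)‖ ≤ C * M ^ j := fun i => hb (b.coord i) x
    have h4 : ∀ i : Fin (Module.finrank ℂ A), ∃ C : ℝ, 0 ≤ C ∧
        ∀ j, ‖b.coord i ((D ^ j) y)‖ ≤ C * M ^ j := fun i => hb (b.coord i) y
    choose C1 hC1 hC1b using h3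
    choose C2 hC2 hC2b using h4
    refine dbl_summable (C := ∑ i, ∑ k, C1 i * (C2 k * ‖l (b i * b k)‖)) (M := ‖t‖ * M) fun p => ?_
    have h5 : l ((D ^ p.1) x * (D ^ p.2) y) =
        ∑ i, ∑ k, b.coord i ((D ^ p.1) x) * (b.coord k ((D ^ p.2) y) * l (b i * b k)) := by
      conv_lhs => rw [← b.sum_repr ((D ^ p.1) x), ← b.sum_repr ((D ^ p.2) y)]
      rw [Finset.sum_mul_sum, map_sum]
      refine Finset.sum_congr rfl fun i _ => ?_
      rw [map_sum]
      refine Finset.sum_congr rfl fun k _ => ?_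
      rw [smul_mul_smul_comm, map_smul, smul_eq_mul, mul_assoc]
      rfl
    have h6 : ‖l ((D ^ p.1) x * (D ^ p.2) y)‖ ≤
        (∑ i, ∑ k, C1 i * (C2 k * ‖l (b i * b k)‖)) * (M ^ p.1 * M ^ p.2) := by
      rw [h5]
      refine (norm_sum_le _ _).trans ?_
      rw [Finset.sum_mul]
      refine Finset.sum_le_sum fun i _ => (norm_sum_le _ _).trans ?_
      rw [Finset.sum_mul]
      refine Finset.sum_le_sum fun k _ => ?_
      rw [norm_mul, norm_mul]
      calc ‖b.coord i ((D ^ p.1) x)‖ * (‖b.coord k ((D ^ p.2) y)‖ * ‖l (b i * b k)‖)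
          ≤ (C1 i * M ^ p.1) * ((C2 k * M ^ p.2) * ‖l (b i * b k)‖) := by
            have e1 := hC1b i p.1
            have e2 := hC2b k p.2
            have e3 := hC1 i
            have e4 := hC2 k
            gcongr
        _ = _ := by ring
    rw [ha]
    simp only [norm_mul, norm_div, norm_pow, Complex.norm_natCast]
    calc ‖t‖ ^ p.1 / p.1.factorial * (‖t‖ ^ p.2 / p.2.factorial * ‖l ((D ^ p.1) x * (D ^ p.2) y)‖)
        ≤ ‖t‖ ^ p.1 / p.1.factorial * (‖t‖ ^ p.2 / p.2.factorial *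
          ((∑ i, ∑ k, C1 i * (C2 k * ‖l (b i * b k)‖)) * (M ^ p.1 * M ^ p.2))) := by
          gcongr
      _ = _ := by
          rw [mul_pow, mul_pow]
          ring
  have h7 := apply_ex D t x (l.comp (LinearMap.mulRight ℂ (ex D t y)))
  rw [LinearMap.comp_apply, LinearMap.mulRight_apply] at h7
  rw [h7, apply_ex]
  symm
  calc ∑' j, cf D t x (l.comp (LinearMap.mulRight ℂ (ex D t y))) j = ∑' p, ∑' q, a (p, q) :=
        tsum_congr h1
    _ = ∑' n, ∑ p ∈ antidiagonal n, a p := dbl_tsum hs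
    _ = _ := by
      refine tsum_congr fun n => ?_
      rw [cf, leib D hD, map_sum, Finset.mul_sum]
      refine Finset.sum_congr rfl fun p hp => ?_
      rw [HasAntidiagonal.mem_antidiagonal] at hp
      rw [ha]
      simp only
      rw [map_nsmul, nsmul_eq_mul]
      have h7 := chs hp
      rw [h7]
      have h10 : (n.factorial : ℂ) ≠ 0 := by exact_mod_cast Nat.factorial_ne_zero n
      have h11 : t ^ n = t ^ p.1 * t ^ p.2 := by rw [← pow_add, hp]
      rw [h11]
      field_simp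

/-- a subspace stable under all `exp (t D)` is stable under `D` -/
theorem stable {D : V →ₗ[ℂ] V} {W : Submodule ℂ V} (h : ∀ t, ∀ x ∈ W, ex D t x ∈ W) {x : V}
    (hx : x ∈ W) : D x ∈ W := by
  by_contra hn
  obtain ⟨l, hl, hW⟩ := Submodule.exists_le_ker_of_notMem hn
  obtain ⟨M, hM, hb⟩ := bound D
  obtain ⟨C, hC, hb⟩ := hb l x
  have hK : Summable fun j : ℕ => C * (M ^ (j + 2) / (j + 2).factorial) :=
    ((summable_nat_add_iff 2).2 (Real.summable_pow_div_factorial M)).mul_left C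
  set K : ℝ := ∑' j : ℕ, C * (M ^ (j + 2) / (j + 2).factorial) with hKd
  have key : ∀ t : ℝ, 0 < t → t ≤ 1 → ‖l (D x)‖ ≤ t * K := by
    intro t ht ht1
    have h1 : l (ex D t x) = 0 := by
      have := hW (h t x hx)
      rwa [LinearMap.mem_ker] at this
    have h0 : l x = 0 := by
      have := hW hx
      rwa [LinearMap.mem_ker] at this
    have hs := cf_summable D (t : ℂ) x l
    rw [apply_ex, ← hs.sum_add_tsum_nat_add 2, Finset.sum_range_succ, Finset.sum_range_one] at h1
    have h2 : cf D (t : ℂ) x l 0 = 0 := by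
      simp [cf, h0]
    have h3 : cf D (t : ℂ) x l 1 = t * l (D x) := by
      simp [cf]
    rw [h2, h3, zero_add] at h1
    have h4 : ‖∑' j, cf D (t : ℂ) x l (j + 2)‖ ≤ t ^ 2 * K := by
      rw [hKd, ← tsum_mul_left]
      refine tsum_of_norm_bounded (hK.mul_left (t ^ 2)).hasSum fun j => ?_
      rw [cf, norm_mul, norm_div, norm_pow, Complex.norm_natCast, Complex.norm_real,
        Real.norm_of_nonneg ht.le]
      have h5 := hb (j + 2)
      have h6 : t ^ (j + 2) ≤ t ^ 2 := pow_le_pow_of_le_one ht.le ht1 (by omega)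
      calc t ^ (j + 2) / (j + 2).factorial * ‖l ((D ^ (j + 2)) x)‖
          ≤ t ^ 2 / (j + 2).factorial * (C * M ^ (j + 2)) := by gcongr
        _ = _ := by ring
    have h7 : (t : ℂ) * l (D x) = -∑' j, cf D (t : ℂ) x l (j + 2) := by
      rw [eq_neg_iff_add_eq_zero]
      exact h1
    have h8 : t * ‖l (D x)‖ ≤ t ^ 2 * K := by
      have h9 := congrArg norm h7
      rw [norm_mul, norm_neg, Complex.norm_real, Real.norm_of_nonneg ht.le] at h9
      rw [h9]
      exact h4
    have h10 : t * ‖l (D x)‖ ≤ t * (t * K) := by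
      rw [← mul_assoc, ← sq]
      exact h8
    exact le_of_mul_le_mul_left h10 ht
  have hpos : 0 < ‖l (D x)‖ := norm_pos_iff.2 hl
  have hK0 : 0 < K := by
    have := key 1 one_pos le_rfl
    rw [one_mul] at this
    exact hpos.trans_le this
  have h1 := key (min 1 (‖l (D x)‖ / (2 * K))) (lt_min one_pos (by positivity)) (min_le_left _ _)
  have h2 : min 1 (‖l (D x)‖ / (2 * K)) * K ≤ ‖l (D x)‖ / (2 * K) * K :=
    mul_le_mul_of_nonneg_right (min_le_right _ _) hK0.le
  have h3 : ‖l (D x)‖ / (2 * K) * K = ‖l (D x)‖ / 2 := by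
    field_simp
  rw [h3] at h2
  linarith

end

end Pool.Agent.Helper11.SY
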