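import Pool.Agent.Helper11.SY.In

/-!
The minimizer and Hamiltonian vector fields.
-/

set_option autoImplicit false

namespace Pool.Agent.Helper11.SY

open IsLocalRing Filter

noncomputable section

variable {R : Type} [CommRing R] [Algebra ℂ R] [IsLocalRing R]

theorem fin_pow [IsNoetherianRing R]
    (hres : ∀ f : R, ∃ c : ℂ, f - algebraMap ℂ R c ∈ maximalIdeal R) (k : ℕ) :
    FiniteDimensional ℂ (R ⧸ maximalIdeal R ^ k) := by
  classical
  obtain ⟨s, hs⟩ := (isNoetherianRing_iff_ideal_fg R).1 inferInstance (maximalIdeal R)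
  have key : ∀ k : ℕ, ∃ T : Finset R, ∀ f : R, ∃ g ∈ Submodule.span ℂ (T : Set R),
      f - g ∈ maximalIdeal R ^ k := by
    intro k
    induction k with
    | zero =>
      refine ⟨∅, fun f => ⟨0, Submodule.zero_mem _, ?_⟩⟩
      rw [pow_zero, Ideal.one_eq_top]
      trivial
    | succ k ih =>
      obtain ⟨T, hT⟩ := ih
      refine ⟨insert 1 (Finset.image₂ (fun a b => a * b) s T), fun f => ?_⟩
      obtain ⟨c, hc⟩ := hres f
      have h1 : ∀ x ∈ maximalIdeal R, ∃ g ∈ Submodule.span ℂ
          ((insert 1 (Finset.image₂ (fun a b => a * b) s T) : Finset R) : Set R),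
          x - g ∈ maximalIdeal R ^ (k + 1) := by
        intro x hx
        rw [← hs, Ideal.span, Submodule.mem_span_finset] at hx
        obtain ⟨r, -, rfl⟩ := hx
        choose g hg hgr using fun a => hT (r a)
        refine ⟨∑ a ∈ s, a * g a, Submodule.sum_mem _ fun a ha => ?_, ?_⟩
        · have h2 := Submodule.mem_map_of_mem (f := LinearMap.mulLeft ℂ a) (hg a)
          rw [Submodule.map_span] at h2
          refine Submodule.span_mono ?_ h2
          rintro _ ⟨b, hb, rfl⟩
          rw [LinearMap.mulLeft_apply, Finset.mem_coe]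
          exact Finset.mem_insert_of_mem (Finset.mem_image₂_of_mem ha hb)
        · rw [← Finset.sum_sub_distrib]
          refine Ideal.sum_mem _ fun a ha => ?_
          have h3 : r a • a - a * g a = (r a - g a) * a := by
            rw [smul_eq_mul]
            ring
          rw [h3, pow_succ]
          refine Ideal.mul_mem_mul (hgr a) ?_
          rw [← hs]
          exact Ideal.subset_span ha
      obtain ⟨g, hg, hx⟩ := h1 _ hc
      refine ⟨c • 1 + g, Submodule.add_mem _ (Submodule.smul_mem _ _ (Submodule.subset_span ?_)) hg, ?_⟩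
      · rw [Finset.mem_coe]
        exact Finset.mem_insert_self _ _
      · rw [Algebra.smul_def, mul_one, ← sub_sub]
        exact hx
  obtain ⟨T, hT⟩ := key k
  refine ⟨T.image (Ideal.Quotient.mk (maximalIdeal R ^ k)), ?_⟩
  rw [eq_top_iff]
  rintro x -
  obtain ⟨f, rfl⟩ := Ideal.Quotient.mk_surjective x
  obtain ⟨g, hg, hfg⟩ := hT f
  rw [Ideal.Quotient.eq.2 hfg, Finset.coe_image]
  have h2 := Submodule.mem_map_of_mem (f := (Ideal.Quotient.mkₐ ℂ (maximalIdeal R ^ k)).toLinearMap) hg
  rw [Submodule.map_span] at h2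
  exact h2

/-- a power of the maximal ideal is contained in a given valuation ideal -/
theorem pow_le_idl [IsNoetherianRing R] (w : CVal R) (r : ℝ) :
    ∃ N : ℕ, maximalIdeal R ^ N ≤ w.idl r := by
  classical
  obtain ⟨s, hs⟩ := (isNoetherianRing_iff_ideal_fg R).1 inferInstance (maximalIdeal R)
  -- a positive lower bound on the generators
  have h1 : ∃ e : ℝ, 0 < e ∧ ∀ a ∈ s, (e : WithTop ℝ) ≤ w.v a := by
    have h2 : ∀ t : Finset R, t ⊆ s → ∃ e : ℝ, 0 < e ∧ ∀ a ∈ t, (e : WithTop ℝ) ≤ w.v a := by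
      intro t
      induction t using Finset.induction_on with
      | empty => exact fun _ => ⟨1, one_pos, fun a ha => absurd ha (Finset.notMem_empty a)⟩
      | insert a t ha ih =>
        intro hts
        obtain ⟨e, he, h⟩ := ih fun b hb => hts (Finset.mem_insert_of_mem hb)
        have ham : a ∈ maximalIdeal R := by
          rw [← hs]
          exact Ideal.subset_span (hts (Finset.mem_insert_self _ _))
        have hpos := (w.pos a).2 ham
        obtain ⟨e', he', hle⟩ : ∃ e' : ℝ, 0 < e' ∧ (e' : WithTop ℝ) ≤ w.v a := by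
          by_cases htop : w.v a = ⊤
          · exact ⟨1, one_pos, by rw [htop]; exact le_top⟩
          · obtain ⟨y, hy⟩ := WithTop.ne_top_iff_exists.1 htop
            refine ⟨y, ?_, hy.le⟩
            rw [← hy] at hpos
            exact_mod_cast hpos
        refine ⟨min e e', lt_min he he', fun b hb => ?_⟩
        rcases Finset.mem_insert.1 hb with rfl | hb
        · exact (WithTop.coe_le_coe.2 (min_le_right _ _)).trans hle
        · exact (WithTop.coe_le_coe.2 (min_le_left _ _)).trans (h b hb)
    exact h2 s (Finset.Subset.refl s)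
  obtain ⟨e, he, hse⟩ := h1
  have h3 : maximalIdeal R ≤ w.idl e := by
    rw [← hs, Ideal.span_le]
    exact hse
  have h4 : ∀ N : ℕ, maximalIdeal R ^ N ≤ w.idl (N * e) := by
    intro N
    induction N with
    | zero =>
      intro x _
      change ((((0 : ℕ) : ℝ) * e : ℝ) : WithTop ℝ) ≤ w.v x
      rw [Nat.cast_zero, zero_mul]
      exact w.nonneg x
    | succ N ih =>
      rw [pow_succ, Ideal.mul_le]
      intro x hx y hy
      change ((((N + 1 : ℕ) : ℝ) * e : ℝ) : WithTop ℝ) ≤ w.v (x * y)
      rw [w.v.map_mul, Nat.cast_add, Nat.cast_one, add_mul, one_mul, WithTop.coe_add]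
      exact add_le_add (ih hx) (h3 hy)
  obtain ⟨N, hN⟩ := exists_nat_ge (r / e)
  refine ⟨N, (h4 N).trans ?_⟩
  intro x hx
  have hx' : ((N * e : ℝ) : WithTop ℝ) ≤ w.v x := hx
  change (r : WithTop ℝ) ≤ w.v x
  refine le_trans ?_ hx'
  rw [WithTop.coe_le_coe]
  rwa [div_le_iff₀ he] at hN

/-- Derivations preserving the maximal ideal do not decrease the minimizer. -/
theorem der_val [IsDomain R] [IsNoetherianRing R] [IsAdicComplete (maximalIdeal R) R]
    (hres : ∀ f : R, ∃ c : ℂ, f - algebraMap ℂ R c ∈ maximalIdeal R)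
    (w : CVal R) (hinv : ∀ (σ : R ≃ₐ[ℂ] R) (f : R), w.v (σ f) = w.v f)
    (D : Derivation ℂ R R) (hD : ∀ x ∈ maximalIdeal R, D x ∈ maximalIdeal R) (f : R) :
    w.v f ≤ w.v (D f) := by
  by_cases hf : f = 0
  · rw [hf, Derivation.map_zero]
  have h5 : w.v f ≠ ⊤ := fun h => hf (w.top _ h)
  obtain ⟨y, hy⟩ := WithTop.ne_top_iff_exists.1 h5
  obtain ⟨N, hN⟩ := pow_le_idl w y
  have h1 := der_stable (maximalIdeal R) D hD (fin_pow hres) (w.idl y) N hN (fun σ x hx => by
    change (y : WithTop ℝ) ≤ w.v (σ x)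
    rw [hinv]
    exact hx) (x := f) hy.le
  rw [← hy]
  exact h1

end

end Pool.Agent.Helper11.SY
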