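import Pool.Agent.Helper11.SY.Df
import Pool.Agent.Helper11.SY.Au

/-!
The minimizer is invariant under automorphisms and derivations.
-/

set_option autoImplicit false

namespace Pool.Agent.Helper11.SY

open IsLocalRing Filter

noncomputable section

variable {R : Type} [CommRing R] [Algebra ℂ R] [IsLocalRing R]

/-- transport of a valuation -/
def CVal.tr (w : CVal R) (σ : R ≃ₐ[ℂ] R) : CVal R where
  v := w.v.comap (σ : R →+* R)
  nonneg f := w.nonneg _
  top f h := by
    have h1 := w.top _ h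
    exact (map_eq_zero_iff σ σ.injective).1 h1
  pos f := by
    have h1 : (w.v.comap (σ : R →+* R)) f = w.v (σ f) := rfl
    rw [h1, w.pos, mem_maximalIdeal, mem_maximalIdeal, mem_nonunits_iff, mem_nonunits_iff,
      MulEquiv.isUnit_map]

theorem CVal.tr_apply (w : CVal R) (σ : R ≃ₐ[ℂ] R) (f : R) : (w.tr σ).v f = w.v (σ f) := rfl

theorem unit_val (w : CVal R) {u : R} (hu : IsUnit u) : w.v u = 0 := by
  have h1 : ¬ 0 < w.v u := by
    rw [w.pos, mem_maximalIdeal, mem_nonunits_iff, not_not]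
    exact hu
  exact le_antisymm (not_lt.1 h1) (w.nonneg u)

/-- conjugate of the Pfaffian -/
theorem exists_unit {n : ℕ} (S : Symp R n) (σ : R ≃ₐ[ℂ] R) (hne : ∃ f, S.th f ≠ 0) [IsDomain R] :
    ∃ u : R, IsUnit u ∧ ∀ f : Fin (2 * n) → R, S.th (fun i => σ (f i)) = u * σ (S.th f) := by
  have key : ∀ σ : R ≃ₐ[ℂ] R, ∃ u : R, ∀ f : Fin (2 * n) → R,
      S.th (fun i => σ (f i)) = u * σ (S.th f) := by
    intro σ
    set δ : R [⋀^Fin (2 * n)]→ₗ[ℂ] R :=
      σ.symm.toLinearMap.compAlternatingMap (S.th.compLinearMap σ.toLinearMap) with hδ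
    have hδf : ∀ f : Fin (2 * n) → R, δ f = σ.symm (S.th (fun i => σ (f i))) := fun f => rfl
    obtain ⟨h, hh⟩ := S.gen δ (by
      intro f i x y
      have h1 : ∀ z : R, (fun j => σ (Function.update f i z j)) =
          Function.update (fun j => σ (f j)) i (σ z) := by
        intro z
        funext j
        by_cases hj : j = i
        · subst hj
          rw [Function.update_self, Function.update_self]
        · rw [Function.update_of_ne hj, Function.update_of_ne hj]
      rw [hδf, hδf, hδf, h1, h1, h1, map_mul, S.der, map_add, map_mul, map_mul,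
        AlgEquiv.symm_apply_apply, AlgEquiv.symm_apply_apply])
    refine ⟨σ h, fun f => ?_⟩
    have h2 := congrArg σ (hh f)
    rw [hδf, AlgEquiv.apply_symm_apply, map_mul] at h2
    exact h2
  obtain ⟨u, hu⟩ := key σ
  obtain ⟨u', hu'⟩ := key σ.symm
  refine ⟨u, ?_, hu⟩
  obtain ⟨f, hf⟩ := hne
  have h1 := hu' (fun i => σ (f i))
  simp only [AlgEquiv.symm_apply_apply] at h1
  rw [hu f, map_mul, AlgEquiv.symm_apply_apply] at h1
  have h2 : u' * σ.symm u = 1 := by
    have h3 : (u' * σ.symm u) * S.th f = 1 * S.th f := by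
      rw [one_mul, mul_assoc]
      exact h1.symm
    exact mul_right_cancel₀ hf h3
  have h3 : IsUnit (σ.symm u) := IsUnit.of_mul_eq_one_right _ h2
  have h4 := h3.map σ
  rwa [AlgEquiv.apply_symm_apply] at h4

theorem tr_vol (w : CVal R) (σ : R ≃ₐ[ℂ] R) (d : ℕ) : (w.tr σ).vol d = w.vol d := by
  have h1 : ∀ k : ℕ, Module.finrank ℂ (R ⧸ (w.tr σ).idl k) = Module.finrank ℂ (R ⧸ w.idl k) := by
    intro k
    have h2 : w.idl k = ((w.tr σ).idl k).map (σ : R →+* R) := by
      ext x
      constructor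
      · intro hx
        have h3 : σ.symm x ∈ (w.tr σ).idl k := by
          change (k : WithTop ℝ) ≤ w.v (σ (σ.symm x))
          rw [AlgEquiv.apply_symm_apply]
          exact hx
        have h4 := Ideal.mem_map_of_mem (σ : R →+* R) h3
        have h5 : (σ : R →+* R) (σ.symm x) = x := AlgEquiv.apply_symm_apply σ x
        rwa [h5] at h4
      · intro hx
        have h3 : ((w.tr σ).idl k).map (σ : R →+* R) ≤ w.idl k := by
          rw [Ideal.map_le_iff_le_comap]
          intro y hy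
          exact hy
        exact h3 hx
    exact (Ideal.quotientEquivAlg ((w.tr σ).idl k) (w.idl k) σ h2).toLinearEquiv.finrank_eq
  rw [CVal.vol, CVal.vol]
  simp only [h1]

theorem tr_disc [IsDomain R] {n : ℕ} {S : Symp R n} {w : CVal R} {A : ℝ} (h : LogDisc S w A)
    (hne : ∃ f, S.th f ≠ 0) (σ : R ≃ₐ[ℂ] R) : LogDisc S (w.tr σ) A := by
  obtain ⟨u, hu, hth⟩ := exists_unit S σ hne
  have hv : ∀ f : Fin (2 * n) → R, w.v (σ (S.th f)) = w.v (S.th fun i => σ (f i)) := by
    intro f
    rw [hth, w.v.map_mul, unit_val w hu, zero_add]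
  refine ⟨h.pos, fun f => ?_, fun f hf hf0 => ?_⟩
  · simp only [CVal.tr_apply]
    rw [hv]
    exact h.le _
  · have h1 : σ f ∈ maximalIdeal R := by
      rw [mem_maximalIdeal, mem_nonunits_iff, MulEquiv.isUnit_map]
      exact hf
    obtain ⟨g, i, hg, hg0, hgv⟩ := h.eq (σ f) h1 (by rwa [Ne, map_eq_zero_iff σ σ.injective])
    refine ⟨fun j => σ.symm (g j), i, ?_, ?_, ?_⟩
    · change σ.symm (g i) = f
      rw [hg, AlgEquiv.symm_apply_apply]
    · intro h0
      have h2 := hth fun j => σ.symm (g j)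
      simp only [AlgEquiv.apply_symm_apply] at h2
      rw [h0, map_zero, mul_zero] at h2
      exact hg0 h2
    · simp only [CVal.tr_apply]
      rw [hv]
      simp only [AlgEquiv.apply_symm_apply]
      exact hgv

theorem disc_le {n : ℕ} {S : Symp R n} {w : CVal R} {A A' : ℝ} (h : LogDisc S w A)
    (h' : LogDisc S w A') (hm : ∃ f ∈ maximalIdeal R, f ≠ 0) : A' ≤ A := by
  obtain ⟨f, hf, hf0⟩ := hm
  obtain ⟨g, i, -, hg0, hgv⟩ := h'.eq f hf hf0
  have h1 := h.le g
  rw [← hgv] at h1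
  have h2 : w.v (S.th g) ≠ ⊤ := fun h => hg0 (w.top _ h)
  obtain ⟨x, hx⟩ := WithTop.ne_top_iff_exists.1 h2
  rw [← hx, ← WithTop.coe_add, ← WithTop.coe_add, WithTop.coe_le_coe] at h1
  linarith

/-- The minimizer is invariant under automorphisms. -/
theorem inv_aut [IsDomain R] {n : ℕ} {S : Symp R n} {w : CVal R} {A : ℝ} (h : IsMinimizer S w A)
    (hm : ∃ f ∈ maximalIdeal R, f ≠ 0) (σ : R ≃ₐ[ℂ] R) (f : R) : w.v (σ f) = w.v f := by
  obtain ⟨f0, hf0, hf00⟩ := hm
  obtain ⟨g0, i0, -, hg0, -⟩ := h.disc.eq f0 hf0 hf00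
  have h1 := tr_disc h.disc ⟨g0, hg0⟩ σ
  have h2 : nvol n (w.tr σ) A = nvol n w A := by
    rw [nvol, nvol, tr_vol]
  obtain ⟨c, hc, hcv⟩ := h.unique _ _ h1 h2
  -- `c A` is a log discrepancy of the transported valuation
  have h3 : LogDisc S (w.tr σ) (c * A) := by
    have hsc : ∀ x : R, x ≠ 0 → ∃ y : ℝ, w.v x = (y : WithTop ℝ) ∧
        (w.tr σ).v x = ((c * y : ℝ) : WithTop ℝ) := by
      intro x hx
      have h4 : w.v x ≠ ⊤ := fun h => hx (w.top _ h)
      obtain ⟨y, hy⟩ := WithTop.ne_top_iff_exists.1 h4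
      exact ⟨y, hy.symm, hcv x y hy.symm⟩
    refine ⟨mul_pos hc h.disc.pos, fun f => ?_, fun f hf hf0 => ?_⟩
    · by_cases ht : S.th f = 0
      · rw [ht, AddValuation.map_zero, top_add]
        exact le_top
      · have hfi : ∀ i, f i ≠ 0 := by
          intro i hi
          apply ht
          exact S.th.map_coord_zero i hi
        choose y hy hy' using fun i => hsc (f i) (hfi i)
        obtain ⟨z, hz, hz'⟩ := hsc _ ht
        have h5 := h.disc.le f
        simp only [hy, hz] at h5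
        rw [← WithTop.coe_sum, ← WithTop.coe_add, WithTop.coe_le_coe] at h5
        simp only [hy', hz']
        rw [← WithTop.coe_sum, ← WithTop.coe_add, WithTop.coe_le_coe, ← Finset.mul_sum, ← mul_add]
        exact mul_le_mul_of_nonneg_left h5 hc.le
    · obtain ⟨g, i, hg, hg0, hgv⟩ := h.disc.eq f hf hf0
      refine ⟨g, i, hg, hg0, ?_⟩
      have hfi : ∀ i, g i ≠ 0 := by
        intro i hi
        apply hg0
        exact S.th.map_coord_zero i hi
      choose y hy hy' using fun i => hsc (g i) (hfi i)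
      obtain ⟨z, hz, hz'⟩ := hsc _ hg0
      simp only [hy, hz] at hgv
      rw [← WithTop.coe_sum, ← WithTop.coe_add, WithTop.coe_eq_coe] at hgv
      simp only [hy', hz']
      rw [← WithTop.coe_sum, ← WithTop.coe_add, WithTop.coe_eq_coe, ← Finset.mul_sum, ← mul_add, hgv]
  have h4 : c * A = A := le_antisymm (disc_le h1 h3 ⟨f0, hf0, hf00⟩) (disc_le h3 h1 ⟨f0, hf0, hf00⟩)
  have hc1 : c = 1 := by
    have := h.disc.pos
    exact mul_right_cancel₀ this.ne' (by rw [h4, one_mul])
  by_cases hf : f = 0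
  · rw [hf, map_zero]
  · have h5 : w.v f ≠ ⊤ := fun h => hf (w.top _ h)
    obtain ⟨y, hy⟩ := WithTop.ne_top_iff_exists.1 h5
    have h6 := hcv f y hy.symm
    rw [hc1, one_mul, hy] at h6
    exact h6

end

end Pool.Agent.Helper11.SY
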