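import Pool.Agent.Helper11.SY.Ma

/-!
`2 n - 1` functions of small valuation with independent initial forms contain `2 n - 2` functions with
nondegenerate brackets.
-/

set_option autoImplicit false

namespace Pool.Agent.Helper11.SY

open IsLocalRing Finset

noncomputable section

section jac

variable {R : Type*} [CommRing R] [IsDomain R]

/-- the Jacobi identity for `2 × 2` minors of the adjugate -/
theorem jacobi {κ : Type*} [Fintype κ] [DecidableEq κ] (M : Matrix (Fin 2 ⊕ κ) (Fin 2 ⊕ κ) R)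
    (hM : M.det ≠ 0) : M.adjugate.toBlocks₁₁.det = M.det * M.toBlocks₂₂.det := by
  have h1 : M * M.adjugate = M.det • (1 : Matrix (Fin 2 ⊕ κ) (Fin 2 ⊕ κ) R) :=
    Matrix.mul_adjugate M
  have hMb : M = Matrix.fromBlocks M.toBlocks₁₁ M.toBlocks₁₂ M.toBlocks₂₁ M.toBlocks₂₂ :=
    (Matrix.fromBlocks_toBlocks M).symm
  have hAb : M.adjugate = Matrix.fromBlocks M.adjugate.toBlocks₁₁ M.adjugate.toBlocks₁₂
      M.adjugate.toBlocks₂₁ M.adjugate.toBlocks₂₂ := (Matrix.fromBlocks_toBlocks _).symm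
  obtain ⟨d, hd⟩ : ∃ d, M.det = d := ⟨_, rfl⟩
  obtain ⟨P, hP⟩ : ∃ P, M.adjugate = P := ⟨_, rfl⟩
  rw [hd, hP] at h1
  rw [hP] at hAb
  rw [hd] at hM
  have h2 : M * Matrix.fromBlocks P.toBlocks₁₁ 0 P.toBlocks₂₁ 1 =
      Matrix.fromBlocks (d • 1) M.toBlocks₁₂ 0 M.toBlocks₂₂ := by
    rw [hAb] at h1
    rw [hMb] at h1 ⊢
    rw [Matrix.fromBlocks_multiply, ← Matrix.fromBlocks_one, Matrix.fromBlocks_smul,
      Matrix.fromBlocks_inj] at h1
    obtain ⟨h11, -, h21, -⟩ := h1
    rw [Matrix.fromBlocks_multiply, Matrix.toBlocks_fromBlocks₁₂, Matrix.toBlocks_fromBlocks₂₂]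
    rw [Matrix.fromBlocks_inj]
    refine ⟨h11, by simp, ?_, by simp⟩
    rw [h21, smul_zero]
  have h3 := congrArg Matrix.det h2
  rw [Matrix.det_mul, Matrix.det_fromBlocks_zero₁₂, Matrix.det_fromBlocks_zero₂₁, Matrix.det_one,
    Matrix.det_smul, Matrix.det_one, hd, Fintype.card_fin] at h3
  rw [hd, hP]
  have h4 : d * P.toBlocks₁₁.det = d * (d * M.toBlocks₂₂.det) := by
    linear_combination h3
  exact mul_left_cancel₀ hM h4

end jac

section

variable {R : Type} [CommRing R]

/-- the adjugate of a skew matrix of even size is skew -/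
theorem adj_skew [CharZero R] {ι : Type*} [Fintype ι] [DecidableEq ι] {n : ℕ} (hn : 1 ≤ n)
    (hc : Fintype.card ι = 2 * n) (M : Matrix ι ι R) (hM : ∀ i j, M i j = -M j i) (i j : ι) :
    M.adjugate i j = -M.adjugate j i := by
  have hT : M.transpose = (-1 : R) • M := by
    ext i j
    rw [Matrix.transpose_apply, Matrix.smul_apply, smul_eq_mul, hM j i]
    ring
  have h1 := Matrix.adjugate_transpose M
  rw [hT, Matrix.adjugate_smul, hc] at h1
  have h2 := congrFun (congrFun h1 j) i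
  rw [Matrix.transpose_apply, Matrix.smul_apply, smul_eq_mul] at h2
  rw [h2]
  have h3 : (-1 : R) ^ (2 * n - 1) = -1 := by
    apply Odd.neg_one_pow
    exact ⟨n - 1, by omega⟩
  rw [h3]
  ring

/-- choose two rows -/
theorem exists_equiv {m : ℕ} (hm : 2 ≤ m) (j k : Fin m) (hjk : k ≠ j) :
    ∃ e : Fin 2 ⊕ Fin (m - 2) ≃ Fin m, e (Sum.inl 0) = j ∧ e (Sum.inl 1) = k := by
  have h2 : 2 + (m - 2) = m := by omega
  obtain ⟨e0, he0⟩ : ∃ e0 : Fin 2 ⊕ Fin (m - 2) ≃ Fin m, e0 = e0 :=
    ⟨finSumFinEquiv.trans (finCongr h2), rfl⟩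
  have hpq : e0 (Sum.inl 0) ≠ e0 (Sum.inl 1) := by
    intro h
    have := e0.injective h
    simp at this
  set p := e0 (Sum.inl 0) with hp
  set q := e0 (Sum.inl 1) with hq
  have hq' : Equiv.swap p j q ≠ j := by
    intro h
    have h3 : Equiv.swap p j p = j := Equiv.swap_apply_left p j
    exact hpq ((Equiv.swap p j).injective (h.trans h3.symm)).symm
  refine ⟨(e0.trans (Equiv.swap p j)).trans (Equiv.swap (Equiv.swap p j q) k), ?_, ?_⟩
  · rw [Equiv.trans_apply, Equiv.trans_apply, ← hp, Equiv.swap_apply_left,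
      Equiv.swap_apply_of_ne_of_ne hq'.symm hjk.symm]
  · rw [Equiv.trans_apply, Equiv.trans_apply, ← hq, Equiv.swap_apply_left]

variable [Algebra ℂ R] [IsLocalRing R]

/-- all but one of `2 n` functions, with independent initial forms, are good: then `2 n - 2` of them have
nondegenerate brackets -/
theorem rank_of_indep [IsDomain R] {n : ℕ} (hn : 1 ≤ n) {S : Symp R n} {w : CVal R} {A : ℝ}
    (F : Fin (2 * n) → R) (j : Fin (2 * n)) (hF : ∀ i, i ≠ j → ∀ g, Good S w (A / n) (F i) g)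
    (hth : S.th F ≠ 0) (hval : ∑ i, w.v (F i) = w.v (S.th F) + (A : WithTop ℝ)) :
    ∃ e : Fin (2 * n - 2) → Fin (2 * n), (∀ i, e i ≠ j) ∧
      (Matrix.of fun i k => S.br (F (e i)) (F (e k))).det ≠ 0 ∧
      w.v (Matrix.of fun i k => S.br (F (e i)) (F (e k))).det +
        (((2 * n - 2 : ℕ) * (A / n) : ℝ) : WithTop ℝ) ≤ 2 • ∑ i, w.v (F (e i)) := by
  haveI : CharZero R := charZero_of_injective_algebraMap (FaithfulSMul.algebraMap_injective ℂ R)
  have hn0 : (n : ℝ) ≠ 0 := by
    have : n ≠ 0 := by omega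
    exact_mod_cast this
  set a : ℝ := A / n with ha
  have hA : A = n * a := by
    rw [ha]
    field_simp
  have hF0 : ∀ i, F i ≠ 0 := by
    intro i hi
    apply hth
    exact S.th.map_coord_zero i hi
  choose φ hφ using fun i => real_val w (hF0 i)
  obtain ⟨τ, hτ⟩ := real_val w hth
  simp only [hφ] at hval
  rw [hτ, ← WithTop.coe_sum, ← WithTop.coe_add, WithTop.coe_eq_coe] at hval
  set M := Matrix.of fun i k => S.br (F i) (F k) with hM
  have hMs : ∀ i k, M i k = -M k i := by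
    intro i k
    rw [hM, Matrix.of_apply, Matrix.of_apply]
    exact br_skew S _ _
  have hMd : M.det = S.th F ^ 2 := (S.sq F).symm
  have hMd0 : M.det ≠ 0 := by
    rw [hMd]
    exact pow_ne_zero 2 hth
  have hMv : w.v M.det = ((2 * τ : ℝ) : WithTop ℝ) := by
    rw [hMd, w.v.map_pow, hτ, two_nsmul, ← WithTop.coe_add, WithTop.coe_eq_coe]
    ring
  -- a large term of the expansion along the row `j`
  obtain ⟨k, hk0, hk⟩ : ∃ k, M j k * M.adjugate k j ≠ 0 ∧
      w.v (M j k * M.adjugate k j) ≤ w.v M.det := by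
    by_contra hcon
    push Not at hcon
    have h1 : w.v M.det < w.v (∑ k, M j k * M.adjugate k j) := by
      refine w.v.map_lt_sum ?_ fun k _ => ?_
      · rw [hMv]
        exact WithTop.coe_ne_top
      · by_cases h2 : M j k * M.adjugate k j = 0
        · rw [h2, w.v.map_zero, hMv]
          exact WithTop.coe_lt_top _
        · exact hcon k h2
    rw [← Matrix.det_eq_sum_mul_adjugate_row] at h1
    exact lt_irrefl _ h1
  have hkj : k ≠ j := by
    rintro rfl
    apply hk0
    rw [hM, Matrix.of_apply, S.self, zero_mul]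
  have hadj0 : M.adjugate k j ≠ 0 := right_ne_zero_of_mul hk0
  obtain ⟨γ, hγ⟩ := real_val w hadj0
  have hγle : γ ≤ 2 * τ - (φ j + φ k - a) := by
    have h1 := (good_of_real (hφ k) (hφ j)).1 (hF k hkj (F j))
    have h2 : M j k = -S.br (F k) (F j) := by
      rw [hMs j k, hM, Matrix.of_apply]
    rw [w.v.map_mul, hγ, hMv, h2, AddValuation.map_neg] at hk
    have h3 := le_trans (add_le_add h1 (le_refl ((γ : ℝ) : WithTop ℝ))) hk
    rw [← WithTop.coe_add, WithTop.coe_le_coe] at h3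
    linarith
  obtain ⟨e, hej, hek⟩ := exists_equiv (by omega) j k hkj
  have hjac := jacobi (M.submatrix e e) (by rwa [Matrix.det_submatrix_equiv_self])
  rw [Matrix.det_submatrix_equiv_self, Matrix.adjugate_submatrix_equiv_self, Matrix.det_fin_two]
    at hjac
  have hsk := adj_skew hn (Fintype.card_fin _) M hMs
  have hdiag : ∀ i, M.adjugate i i = 0 := fun i => self_eq_neg.1 (hsk i i)
  simp only [Matrix.toBlocks₁₁, Matrix.toBlocks₂₂, Matrix.of_apply, Matrix.submatrix_apply, hej,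
    hek, hdiag] at hjac
  rw [hsk j k] at hjac
  have hN : (Matrix.of fun i l => S.br (F (e (Sum.inr i))) (F (e (Sum.inr l)))).det * M.det =
      M.adjugate k j ^ 2 := by
    have h1 : (Matrix.of fun i l => M (e (Sum.inr i)) (e (Sum.inr l))) =
      (Matrix.of fun i l => S.br (F (e (Sum.inr i))) (F (e (Sum.inr l)))) := rfl
    rw [← h1]
    linear_combination -hjac
  have hN0 : (Matrix.of fun i l => S.br (F (e (Sum.inr i))) (F (e (Sum.inr l)))).det ≠ 0 := by
    intro h
    rw [h, zero_mul] at hN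
    exact hadj0 (pow_eq_zero_iff (two_ne_zero) |>.1 hN.symm)
  refine ⟨fun i => e (Sum.inr i), fun i h => ?_, hN0, ?_⟩
  · rw [← hej] at h
    have := e.injective h
    simp at this
  · obtain ⟨δ, hδ⟩ := real_val w hN0
    have h1 := congrArg w.v hN
    rw [w.v.map_mul, hδ, hMv, w.v.map_pow, hγ, two_nsmul, ← WithTop.coe_add, ← WithTop.coe_add,
      WithTop.coe_eq_coe] at h1
    rw [hδ]
    simp only [hφ]
    rw [← WithTop.coe_sum, ← WithTop.coe_add, two_nsmul, ← WithTop.coe_add, WithTop.coe_le_coe]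
    have h2 : ∑ i, φ i = φ j + φ k + ∑ i, φ (e (Sum.inr i)) := by
      rw [← Equiv.sum_comp e, Fintype.sum_sum_type, Fin.sum_univ_two, hej, hek]
    have hm : (((2 * n - 2 : ℕ) : ℕ) : ℝ) = 2 * n - 2 := by
      rw [Nat.cast_sub (by omega)]
      push_cast
      ring
    rw [hm]
    nlinarith
end

end

end Pool.Agent.Helper11.SY
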